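import Mathlib

/-!
Abstract rank functions on finite sets, the (sign-free) characteristic polynomials of their
minors, deletion-contraction, and the lower bound by a chain of flats.
-/

namespace Q131.FP

open Polynomial Finset

/-- All coefficients are non-negative. -/
def Nn (p : ℤ[X]) : Prop := ∀ i, 0 ≤ p.coeff i

theorem Nn.zero : Nn 0 := by intro i; simp

theorem Nn.one : Nn 1 := by
  intro i; rw [coeff_one]; split_ifs <;> norm_num

theorem Nn.add {p q : ℤ[X]} (hp : Nn p) (hq : Nn q) : Nn (p + q) := fun i => by
  rw [coeff_add]; exact add_nonneg (hp i) (hq i)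

theorem Nn.mul {p q : ℤ[X]} (hp : Nn p) (hq : Nn q) : Nn (p * q) := fun i => by
  rw [coeff_mul]; exact Finset.sum_nonneg fun x _ => mul_nonneg (hp _) (hq _)

theorem Nn.pow {p : ℤ[X]} (hp : Nn p) (n : ℕ) : Nn (p ^ n) := by
  induction n with
  | zero => rw [pow_zero]; exact Nn.one
  | succ n ih => rw [pow_succ]; exact ih.mul hp

theorem Nn.X : Nn X := by
  intro i; rw [coeff_X]; split_ifs <;> norm_num

theorem Nn.natCast (n : ℕ) : Nn (n : ℤ[X]) := by
  induction n with
  | zero => rw [Nat.cast_zero]; exact Nn.zero
  | succ n ih => rw [Nat.cast_succ]; exact ih.add Nn.one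

/-- Coefficientwise comparison. -/
def Le (p q : ℤ[X]) : Prop := Nn (q - p)

theorem Le.refl (p : ℤ[X]) : Le p p := by
  unfold Le; rw [sub_self]; exact Nn.zero

theorem Le.trans {p q s : ℤ[X]} (h₁ : Le p q) (h₂ : Le q s) : Le p s := by
  have := Nn.add h₁ h₂
  unfold Le
  have e : s - p = (q - p) + (s - q) := by ring
  rw [e]; exact this

theorem Le.add {p q s t : ℤ[X]} (h₁ : Le p q) (h₂ : Le s t) : Le (p + s) (q + t) := by
  have := Nn.add h₁ h₂
  unfold Le
  have e : q + t - (p + s) = (q - p) + (t - s) := by ring
  rw [e]; exact this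

theorem Le.mul_left {p q s : ℤ[X]} (h : Le p q) (hs : Nn s) : Le (s * p) (s * q) := by
  unfold Le
  rw [← mul_sub]; exact Nn.mul hs h

theorem Le.coeff {p q : ℤ[X]} (h : Le p q) (i : ℕ) : p.coeff i ≤ q.coeff i := by
  have := h i
  rw [coeff_sub] at this
  linarith

theorem Le.of_eq {p q : ℤ[X]} (h : p = q) : Le p q := by
  rw [h]; exact Le.refl q

variable {α : Type*} [DecidableEq α]

/-- A rank function (not necessarily normalised), on all finite subsets of `α`. -/
structure RankFn (r : Finset α → ℕ) : Prop where
  le_insert : ∀ Z e, r Z ≤ r (insert e Z)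
  insert_le : ∀ Z e, r (insert e Z) ≤ r Z + 1
  cl_mono : ∀ Z W e, Z ⊆ W → r (insert e Z) = r Z → r (insert e W) = r W

variable {r : Finset α → ℕ}

theorem RankFn.mono (h : RankFn r) {Z W : Finset α} (hZW : Z ⊆ W) : r Z ≤ r W := by
  classical
  have key : ∀ D : Finset α, r Z ≤ r (D ∪ Z) := by
    intro D
    induction D using Finset.induction_on with
    | empty => simp
    | insert a s _ ih =>
      rw [Finset.insert_union]
      exact ih.trans (h.le_insert _ _)
  have := key W
  rwa [Finset.union_eq_left.mpr hZW] at this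

theorem RankFn.insert_cases (h : RankFn r) (Z : Finset α) (e : α) :
    r (insert e Z) = r Z ∨ r (insert e Z) = r Z + 1 := by
  have h1 := h.le_insert Z e
  have h2 := h.insert_le Z e
  omega

/-- An element outside the closure of a bigger set is outside the closure of a smaller one. -/
theorem RankFn.up_mono (h : RankFn r) {Z W : Finset α} {e : α} (hZW : Z ⊆ W)
    (hW : r (insert e W) = r W + 1) : r (insert e Z) = r Z + 1 := by
  rcases h.insert_cases Z e with h1 | h1
  · have := h.cl_mono Z W e hZW h1
    omega
  · exact h1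

/-- The characteristic polynomial (without signs) of the minor on `S` with `C` contracted. -/
noncomputable def A (r : Finset α → ℕ) (S C : Finset α) : ℤ[X] :=
  ∑ Z ∈ S.powerset, (-1) ^ (Z.card + r (Z ∪ C) + r C) * X ^ (r (S ∪ C) - r (Z ∪ C))

theorem A_empty (C : Finset α) : A r ∅ C = 1 := by
  unfold A
  rw [Finset.powerset_empty, Finset.sum_singleton]
  rw [Finset.empty_union, Finset.card_empty, Nat.sub_self, pow_zero, mul_one, zero_add]
  exact Even.neg_one_pow ⟨r C, rfl⟩

theorem A_insert {S C : Finset α} {e : α} (he : e ∉ S) :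
    A r (insert e S) C =
      (∑ Z ∈ S.powerset, (-1) ^ (Z.card + r (Z ∪ C) + r C) *
        X ^ (r (insert e (S ∪ C)) - r (Z ∪ C))) +
      ∑ Z ∈ S.powerset, (-1) ^ (Z.card + 1 + r (insert e (Z ∪ C)) + r C) *
        X ^ (r (insert e (S ∪ C)) - r (insert e (Z ∪ C))) := by
  unfold A
  rw [Finset.sum_powerset_insert he]
  rw [Finset.insert_union]
  congr 1
  refine Finset.sum_congr rfl fun Z hZ => ?_
  have hZe : e ∉ Z := fun h => he (Finset.mem_powerset.mp hZ h)
  rw [Finset.card_insert_of_notMem hZe, Finset.insert_union]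

theorem A_loop (h : RankFn r) {S C : Finset α} {e : α} (he : e ∉ S)
    (hl : r (insert e C) = r C) : A r (insert e S) C = 0 := by
  rw [A_insert he, ← Finset.sum_add_distrib]
  refine Finset.sum_eq_zero fun Z _ => ?_
  have h1 : r (insert e (Z ∪ C)) = r (Z ∪ C) :=
    h.cl_mono C (Z ∪ C) e Finset.subset_union_right hl
  rw [h1]
  have : (-1 : ℤ[X]) ^ (Z.card + 1 + r (Z ∪ C) + r C)
      = - (-1) ^ (Z.card + r (Z ∪ C) + r C) := by
    rw [show Z.card + 1 + r (Z ∪ C) + r C = (Z.card + r (Z ∪ C) + r C) + 1 by ring, pow_succ]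
    ring
  rw [this]; ring

theorem A_second {S C : Finset α} {e : α}
    (hn : r (insert e C) = r C + 1) :
    (∑ Z ∈ S.powerset, (-1 : ℤ[X]) ^ (Z.card + 1 + r (insert e (Z ∪ C)) + r C) *
        X ^ (r (insert e (S ∪ C)) - r (insert e (Z ∪ C)))) = A r S (insert e C) := by
  unfold A
  refine Finset.sum_congr rfl fun Z _ => ?_
  rw [Finset.union_insert, Finset.union_insert, hn]
  congr 2
  ring

/-- Deletion-contraction when `e` is neither a loop nor a coloop. -/
theorem A_dc {S C : Finset α} {e : α} (he : e ∉ S)
    (hn : r (insert e C) = r C + 1) (hc : r (insert e (S ∪ C)) = r (S ∪ C)) :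
    A r (insert e S) C = A r S C + A r S (insert e C) := by
  rw [A_insert he, A_second hn, hc]
  rfl

/-- Contracting an element outside the closure changes nothing. -/
theorem A_contract_out (h : RankFn r) {S C : Finset α} {e : α}
    (hc : r (insert e (S ∪ C)) = r (S ∪ C) + 1) :
    A r S (insert e C) = A r S C := by
  unfold A
  refine Finset.sum_congr rfl fun Z hZ => ?_
  have hZ' : Z ⊆ S := Finset.mem_powerset.mp hZ
  have h1 : r (insert e (Z ∪ C)) = r (Z ∪ C) + 1 :=
    h.up_mono (Finset.union_subset_union_left hZ') hc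
  have h2 : r (insert e C) = r C + 1 := h.up_mono Finset.subset_union_right hc
  rw [Finset.union_insert, Finset.union_insert, h1, h2, hc, Nat.add_sub_add_right]
  congr 1
  rw [show Z.card + (r (Z ∪ C) + 1) + (r C + 1) = (Z.card + r (Z ∪ C) + r C) + 2 by ring,
    pow_add]
  norm_num

/-- Coloops. -/
theorem A_coloop (h : RankFn r) {S C : Finset α} {e : α} (he : e ∉ S)
    (hc : r (insert e (S ∪ C)) = r (S ∪ C) + 1) :
    A r (insert e S) C = (X + 1) * A r S C := by
  have h2 : r (insert e C) = r C + 1 := h.up_mono Finset.subset_union_right hc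
  rw [A_insert he, A_second h2, A_contract_out h hc, add_mul, one_mul]
  congr 1
  unfold A
  rw [Finset.mul_sum]
  refine Finset.sum_congr rfl fun Z hZ => ?_
  have hZ' : Z ⊆ S := Finset.mem_powerset.mp hZ
  have hm : r (Z ∪ C) ≤ r (S ∪ C) := h.mono (Finset.union_subset_union_left hZ')
  rw [hc, Nat.sub_add_comm hm, pow_succ]
  ring

/-- The polynomials have non-negative coefficients. -/
theorem A_nonneg (h : RankFn r) (S : Finset α) : ∀ C, Nn (A r S C) := by
  induction S using Finset.induction_on with
  | empty => intro C; rw [A_empty]; exact Nn.one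
  | insert e S he ih =>
    intro C
    rcases h.insert_cases C e with h1 | h1
    · rw [A_loop h he h1]; exact Nn.zero
    · rcases h.insert_cases (S ∪ C) e with h2 | h2
      · rw [A_dc he h1 h2]; exact (ih C).add (ih _)
      · rw [A_coloop h he h2]; exact (Nn.X.add Nn.one).mul (ih C)

/-- Adding non-loops without changing the rank does not decrease the coefficients. -/
theorem A_mono (h : RankFn r) {S C : Finset α} (D : Finset α)
    (hD : ∀ e ∈ D, e ∉ S) (hn : ∀ e ∈ D, r (insert e C) = r C + 1)
    (hr : ∀ e ∈ D, r (insert e (S ∪ C)) = r (S ∪ C)) :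
    Le (A r S C) (A r (D ∪ S) C) := by
  induction D using Finset.induction_on with
  | empty => rw [Finset.empty_union]; exact Le.refl _
  | insert e D he ih =>
    have h1 : e ∉ D ∪ S := by
      rw [Finset.mem_union, not_or]
      exact ⟨he, hD e (Finset.mem_insert_self _ _)⟩
    have h2 := hn e (Finset.mem_insert_self _ _)
    have h3 : r (insert e (D ∪ S ∪ C)) = r (D ∪ S ∪ C) := by
      refine h.cl_mono (S ∪ C) (D ∪ S ∪ C) e ?_ (hr e (Finset.mem_insert_self _ _))
      rw [Finset.union_assoc]; exact Finset.subset_union_right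
    rw [Finset.insert_union, A_dc h1 h2 h3]
    have ih' := ih (fun e he => hD e (Finset.mem_insert_of_mem he))
      (fun e he => hn e (Finset.mem_insert_of_mem he))
      (fun e he => hr e (Finset.mem_insert_of_mem he))
    have := ih'.add (show Le 0 (A r (D ∪ S) (insert e C)) by
      unfold Le; rw [sub_zero]; exact A_nonneg h _ _)
    rwa [add_zero] at this

theorem A_mono' (h : RankFn r) {S S' C : Finset α} (hS : S ⊆ S')
    (hn : ∀ e ∈ S', e ∉ S → r (insert e C) = r C + 1)
    (hr : ∀ e ∈ S', r (insert e (S ∪ C)) = r (S ∪ C)) :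
    Le (A r S C) (A r S' C) := by
  have := A_mono h (S := S) (C := C) (S' \ S)
    (fun e he => (Finset.mem_sdiff.mp he).2)
    (fun e he => hn e (Finset.mem_sdiff.mp he).1 (Finset.mem_sdiff.mp he).2)
    (fun e he => hr e (Finset.mem_sdiff.mp he).1)
  rwa [Finset.sdiff_union_of_subset hS] at this

/-- The block lemma. -/
theorem A_block (h : RankFn r) {H C : Finset α} (y₀ : α) (Y : Finset α)
    (hy₀ : y₀ ∉ Y)
    (hout : ∀ y ∈ insert y₀ Y, r (insert y (H ∪ C)) = r (H ∪ C) + 1)
    (hin : ∀ y ∈ Y, r (insert y (insert y₀ (H ∪ C))) = r (H ∪ C) + 1)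
    (hpar : ∀ y ∈ insert y₀ Y, ∀ z ∈ insert y₀ Y, y ≠ z →
      r (insert y (insert z C)) = r C + 2) :
    Le ((X + ((Y.card + 1 : ℕ) : ℤ[X])) * A r H C) (A r (Y ∪ insert y₀ H) C) := by
  have hnot : ∀ y ∈ insert y₀ Y, y ∉ H := by
    intro y hy hyH
    have := hout y hy
    rw [Finset.insert_eq_of_mem (Finset.mem_union_left _ hyH)] at this
    omega
  induction Y using Finset.induction_on with
  | empty =>
    rw [Finset.empty_union, Finset.card_empty,
      A_coloop h (hnot y₀ (Finset.mem_insert_self _ _)) (hout y₀ (Finset.mem_insert_self _ _))]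
    simp only [zero_add, Nat.cast_one]
    exact Le.refl _
  | insert y Y hy ih =>
    have hsub : insert y₀ Y ⊆ insert y₀ (insert y Y) :=
      Finset.insert_subset_insert _ (Finset.subset_insert _ _)
    have hymem : y ∈ insert y₀ (insert y Y) :=
      Finset.mem_insert_of_mem (Finset.mem_insert_self _ _)
    have hyy₀ : y ≠ y₀ := fun e => hy₀ (e ▸ Finset.mem_insert_self _ _)
    have ih' := ih (fun h => hy₀ (Finset.mem_insert_of_mem h))
      (fun z hz => hout z (hsub hz))
      (fun z hz => hin z (Finset.mem_insert_of_mem hz))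
      (fun z hz w hw => hpar z (hsub hz) w (hsub hw))
      (fun z hz => hnot z (hsub hz))
    have h1 : y ∉ Y ∪ insert y₀ H := by
      rw [Finset.mem_union, Finset.mem_insert]
      push Not
      exact ⟨hy, hyy₀, hnot y hymem⟩
    have houty := hout y hymem
    have h2 : r (insert y C) = r C + 1 := h.up_mono Finset.subset_union_right houty
    have hsub2 : insert y₀ (H ∪ C) ⊆ Y ∪ insert y₀ H ∪ C := by
      intro z hz
      simp only [Finset.mem_insert, Finset.mem_union] at hz ⊢
      tauto
    have h3 : r (insert y (Y ∪ insert y₀ H ∪ C)) = r (Y ∪ insert y₀ H ∪ C) := by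
      refine h.cl_mono _ _ y hsub2 ?_
      rw [hin y (Finset.mem_insert_self _ _), hout y₀ (Finset.mem_insert_self _ _)]
    rw [Finset.insert_union, A_dc h1 h2 h3, Finset.card_insert_of_notMem hy]
    have h4 : Le (A r H (insert y C)) (A r (Y ∪ insert y₀ H) (insert y C)) := by
      apply A_mono' h
      · intro z hz; simp [hz]
      · intro z hz hzH
        have hz' : z ∈ insert y₀ Y := by
          simp only [Finset.mem_union, Finset.mem_insert] at hz ⊢
          tauto
        have hzy : z ≠ y := by
          rintro rfl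
          exact h1 hz
        rw [hpar z (hsub hz') y hymem hzy, h2]
      · intro z hz
        have e1 : r (H ∪ insert y C) = r (H ∪ C) + 1 := by
          rw [Finset.union_insert, houty]
        -- everything lies in the closure of `H ∪ C ∪ {y}`
        have h5 : r (insert z (insert y (H ∪ C))) = r (insert y (H ∪ C)) := by
          rcases Finset.mem_union.mp hz with hzY | hzH
          · -- z ∈ Y
            have a1 : r (insert y (insert y₀ (H ∪ C))) = r (insert y₀ (H ∪ C)) := by
              rw [hin y (Finset.mem_insert_self _ _), hout y₀ (Finset.mem_insert_self _ _)]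
            have a2 : r (insert z (insert y₀ (H ∪ C))) = r (insert y₀ (H ∪ C)) := by
              rw [hin z (Finset.mem_insert_of_mem hzY), hout y₀ (Finset.mem_insert_self _ _)]
            have a3 : r (insert z (insert y (insert y₀ (H ∪ C))))
                = r (insert y (insert y₀ (H ∪ C))) :=
              h.cl_mono _ _ z (Finset.subset_insert _ _) a2
            have a4 : r (insert z (insert y (H ∪ C))) ≤
                r (insert z (insert y (insert y₀ (H ∪ C)))) := by
              apply h.mono
              apply Finset.insert_subset_insert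
              apply Finset.insert_subset_insert
              exact Finset.subset_insert _ _
            have a5 := h.le_insert (insert y (H ∪ C)) z
            have a6 := hout y₀ (Finset.mem_insert_self _ _)
            omega
          · rcases Finset.mem_insert.mp hzH with rfl | hzH
            · have a1 := hin y (Finset.mem_insert_self _ _)
              rw [Finset.insert_comm] at a1
              rw [a1, houty]
            · rw [Finset.insert_eq_of_mem]
              exact Finset.mem_insert_of_mem (Finset.mem_union_left _ hzH)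
        rw [Finset.union_insert]
        exact h5
    rw [A_contract_out h houty] at h4
    have h6 := ih'.add h4
    refine Le.trans (Le.of_eq ?_) h6
    push_cast
    ring

end Q131.FP
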