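import Pool.Agent.Q131.FP.Chain

/-!
The two main cases: with and without a 2-edge-cut.
-/

set_option linter.unusedSectionVars false

namespace Q131.FP

open Polynomial Finset

variable {V : Type*} [DecidableEq V] [Finite V] {E : Finset (Sym2 V)}

theorem other_nbr (hc : Cub E) (v x : V) : ∃ w, w ≠ x ∧ s(v, w) ∈ E := by
  obtain ⟨a, b, c, hab, hac, hbc, hN⟩ := hc.cubic v
  by_cases h : a = x
  · exact ⟨b, fun h' => hab (h.trans h'.symm), (hN b).mpr (Or.inr (Or.inl rfl))⟩
  · exact ⟨a, h, (hN a).mpr (Or.inl rfl)⟩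

theorem pol2 : Nn (X + 2 : ℤ[X]) := Nn.X.add (Nn.natCast 2)
theorem pol3 : Nn (X + 3 : ℤ[X]) := Nn.X.add (Nn.natCast 3)
theorem pol1 : Nn (X + 1 : ℤ[X]) := Nn.X.add Nn.one

theorem caseA_aux (hc : Cub E) {p q : V} {f : Sym2 V} (hE : s(p, q) ∈ E)
    (hpq : ¬ (HG (E \ {s(p, q), f})).Reachable p q) (m : ℕ) :
    ∀ (F : Finset (Sym2 V)) (k : ℕ), Flat (rk E) E F → s(p, q) ∈ F → f ∈ F →
      (∃ b b', (HG (E \ {s(p, q), f})).Reachable p b ∧ s(b, b') ∈ E ∧ s(b, b') ∉ F) →
      (∃ c c', (HG (E \ {s(p, q), f})).Reachable q c ∧ s(c, c') ∈ E ∧ s(c, c') ∉ F) →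
      rk E F = k + 1 → Le ((X + 1) * (X + 2) ^ k) (A (rk E) F ∅) → rk E E ≤ rk E F + m →
      Target E := by
  set J : SimpleGraph V := HG (E \ {s(p, q), f}) with hJdef
  induction m with
  | zero =>
    rintro F k hF _ _ ⟨b, b', _, hb1, hb2⟩ _ _ _ hr
    exfalso
    have h1 := hF.insert_rank hc.rf hb1 hb2
    have h2 := hc.rf.mono (Finset.insert_subset hb1 hF.1)
    omega
  | succ m ih =>
    rintro F k hF heF hfF ⟨b, b', hb0, hb1, hb2⟩ ⟨c, c', hc0, hc1, hc2⟩ hk hle hr
    have hJF : ∀ u w, s(u, w) ∈ E → s(u, w) ∉ F → J.Adj u w := by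
      intro u w h1 h2
      rw [hJdef, HG_adj, Finset.mem_sdiff, Finset.mem_insert, Finset.mem_singleton]
      refine ⟨⟨h1, ?_⟩, hc.loopless _ _ h1⟩
      rintro (h | h)
      · rw [h] at h2; exact h2 heF
      · rw [h] at h2; exact h2 hfF
    obtain ⟨v, x, y, z, hpv, _, _, hyz, hN, hx, hy, hz⟩ :=
      exists_one hc hF (J := J) (fun u w h => (Finset.mem_sdiff.mp (HG_adj.mp h).1).1) heF hb0
        hb1 hb2
    obtain ⟨F', hsub, hflat, hrank, hyF', _, hF'def, hle'⟩ := star_step hc hF hyz hN hx hy hz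
    have hyE : s(v, y) ∈ E := (hN y).mpr (Or.inr (Or.inl rfl))
    have hpy : J.Reachable p y := hpv.trans (hJF v y hyE hy).reachable
    -- the other side is not touched
    have hcF' : s(c, c') ∉ F' := by
      rw [hF'def, mem_cl]
      rintro ⟨_, h1⟩
      have hne : s(c, c') ≠ s(v, y) := by
        intro h
        rw [Sym2.eq_iff] at h
        rcases h with ⟨rfl, _⟩ | ⟨rfl, _⟩
        · exact hpq (hpv.trans hc0.symm)
        · exact hpq (hpy.trans hc0.symm)
      have hnot : s(c, c') ∉ insert s(v, y) F := by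
        rw [Finset.mem_insert, not_or]; exact ⟨hne, hc2⟩
      have h2 : (HG (E \ insert s(c, c') F)).Reachable c c' := by
        by_contra hcon
        exact hc2 (hF.2 _ hc1 (rk_insert_of_not_reach hc1 hc2 hcon))
      have h3 : ∀ a a', (HG (E \ insert s(c, c') F)).Reachable a a' → J.Reachable q a →
          (HG (E \ insert s(c, c') (insert s(v, y) F))).Reachable a a' := by
        rintro a a' ⟨w⟩
        induction w with
        | nil => intro _; exact SimpleGraph.Reachable.refl _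
        | @cons a a1 a' hadj w ih =>
          intro hqa
          rw [HG_adj, Finset.mem_sdiff, Finset.mem_insert, not_or] at hadj
          obtain ⟨⟨hE1, hn1, hn2⟩, hne1⟩ := hadj
          have hJ1 := hJF a a1 hE1 hn2
          refine SimpleGraph.Reachable.trans ?_ (ih (hqa.trans hJ1.reachable))
          apply SimpleGraph.Adj.reachable
          rw [HG_adj, Finset.mem_sdiff, Finset.mem_insert, Finset.mem_insert, not_or, not_or]
          refine ⟨⟨hE1, hn1, ?_, hn2⟩, hne1⟩
          intro h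
          rw [Sym2.eq_iff] at h
          rcases h with ⟨rfl, _⟩ | ⟨rfl, _⟩
          · exact hpq (hpv.trans hqa.symm)
          · exact hpq (hpy.trans hqa.symm)
      have h4 := rk_insert_of_reach hc.conn hc1 hnot (h3 c c' h2 hc0)
      omega
    by_cases hmore : ∃ b b', J.Reachable p b ∧ s(b, b') ∈ E ∧ s(b, b') ∉ F'
    · refine ih F' (k + 1) hflat (hsub heF) (hsub hfF) hmore ⟨c, c', hc0, hc1, hcF'⟩
        (by omega) ?_ (by omega)
      refine Le.trans ?_ hle'
      refine Le.trans (Le.of_eq ?_) (hle.mul_left pol2)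
      rw [pow_succ]; ring
    · push Not at hmore
      have hcyc := cycle_step hc hF hflat.1 hsub hrank (fun x => J.Reachable p x)
        (fun x hx w hw => hmore x w hx hw)
        (fun x y hx hxy hxyF => hx.trans (hJF x y (hflat.1 hxy) hxyF).reachable)
        (u := v) (u' := y) hpv hyF' hy
      refine target_of_flat hc hflat ⟨_, hyF'⟩ ⟨_, hc1, hcF'⟩ (j := k) (by omega) ?_
      refine Le.trans ?_ hcyc
      refine Le.trans (Le.of_eq ?_) (hle.mul_left pol3)
      ring

/-- The bound when there are parallel elements (2-edge-cuts). -/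
theorem caseA (hc : Cub E) {e f : Sym2 V} (he : e ∈ E) (hf : f ∈ E) (hef : e ≠ f)
    (hp : rk E {e, f} ≠ 2) : Target E := by
  induction e using Sym2.ind with | _ p q => ?_
  have hpq : ¬ (HG (E \ {s(p, q), f})).Reachable p q := parallel_not_reach hc he hf hef hp
  have hsub : ({s(p, q)} : Finset (Sym2 V)) ⊆ E := Finset.singleton_subset_iff.mpr he
  have hb := hc.bridgeless _ he
  have hmem : s(p, q) ∈ cl (rk E) E {s(p, q)} := subset_cl hsub (Finset.mem_singleton_self _)
  have hfmem : f ∈ cl (rk E) E {s(p, q)} := by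
    rw [mem_cl]
    refine ⟨hf, ?_⟩
    rcases hc.rf.insert_cases {s(p, q)} f with h | h
    · exact h
    · exfalso
      apply hp
      rw [Finset.pair_comm]
      show rk E (insert f {s(p, q)}) = 2
      omega
  obtain ⟨w, hw1, hw2⟩ := other_nbr hc p q
  obtain ⟨w', hw3, hw4⟩ := other_nbr hc q p
  have hqp : s(q, p) ∈ E := by rw [Sym2.eq_swap]; exact he
  refine caseA_aux hc he hpq (rk E E) (cl (rk E) E {s(p, q)}) 0 (flat_cl hc.rf hsub) hmem hfmem
    ⟨p, w, SimpleGraph.Reachable.refl _, hw2, ?_⟩ ⟨q, w', SimpleGraph.Reachable.refl _, hw4, ?_⟩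
    ?_ ?_ (by omega)
  · rw [mem_cl]
    rintro ⟨_, h⟩
    have h1 := adj_not_parallel hc hw1 hw2 he
    have h2 : rk E {s(p, w), s(p, q)} = rk E {s(p, q)} := h
    omega
  · rw [mem_cl]
    rintro ⟨_, h⟩
    have h1 := adj_not_parallel hc hw3 hw4 hqp
    have h2 : rk E {s(q, w'), s(p, q)} = rk E {s(p, q)} := h
    rw [Sym2.eq_swap (a := q) (b := p)] at h1
    omega
  · rw [rank_cl hc.rf hsub, hb]
  · rw [pow_zero, mul_one, ← A_singleton hc.rf hc.r0 hb]
    apply A_mono' hc.rf (subset_cl hsub)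
    · intro g hg _
      rw [hc.r0, insert_empty_eq]
      exact hc.bridgeless g (cl_subset _ hg)
    · intro g hg
      rw [Finset.union_empty]
      exact (mem_cl.mp hg).2

/-- Star chains when there are no parallel elements. -/
theorem caseB_aux (hc : Cub E) (hpar : ∀ e ∈ E, ∀ f ∈ E, e ≠ f → rk E {e, f} = 2) (m : ℕ) :
    ∀ (F : Finset (Sym2 V)) (k : ℕ), Flat (rk E) E F → F.Nonempty → F.card = 2 * k + 1 →
      rk E F = k + 1 → Le ((X + 1) * (X + 2) ^ k) (A (rk E) F ∅) → rk E E = rk E F + m + 1 →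
      Target E ∨ ∃ (F' : Finset (Sym2 V)) (k' : ℕ), Flat (rk E) E F' ∧ F'.card = 2 * k' + 1 ∧
        rk E F' = k' + 1 ∧ rk E E = k' + 2 ∧ Le ((X + 1) * (X + 2) ^ k') (A (rk E) F' ∅) := by
  induction m with
  | zero =>
    intro F k hF _ hcard hk hle hr
    right
    exact ⟨F, k, hF, hcard, hk, by omega, hle⟩
  | succ m ih =>
    intro F k hF hne hcard hk hle hr
    have hex : ∃ e ∈ E, e ∉ F := by
      by_contra hcon
      push Not at hcon
      have : F = E := Finset.Subset.antisymm hF.1 hcon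
      rw [this] at hr; omega
    obtain ⟨e, he, heF⟩ := hex
    obtain ⟨f, hf⟩ := hne
    induction e using Sym2.ind with | _ b b' => ?_
    induction f using Sym2.ind with | _ p p' => ?_
    obtain ⟨v, x, y, z, _, _, _, hyz, hN, h1, h2, h3⟩ :=
      exists_one hc hF (J := HG E) (fun u w h => (HG_adj.mp h).1) hf (reach_all hc p b) he heF
    obtain ⟨F', hsub, hflat, hrank, hyF', hzF', _, hle'⟩ := star_step hc hF hyz hN h1 h2 h3
    by_cases hg : ∃ g ∈ F', g ∉ F ∧ g ≠ s(v, y) ∧ g ≠ s(v, z)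
    · left
      obtain ⟨g, hgF', hgF, hgy, hgz⟩ := hg
      have hyE := hflat.1 hyF'
      have hzE := hflat.1 hzF'
      have hgE := hflat.1 hgF'
      have hyzne : s(v, y) ≠ s(v, z) := sym_ne (Or.inr hyz) (Or.inl (hc.loopless _ _ hzE))
      have h3b := three_bound hc hF hflat.1 hsub hrank hyF' h2 hzF' h3 hgF' hgF
        (hpar _ hyE _ hzE hyzne) (hpar _ hyE _ hgE (Ne.symm hgy)) (hpar _ hzE _ hgE (Ne.symm hgz))
      have hex' : ∃ e ∈ E, e ∉ F' := by
        by_contra hcon
        push Not at hcon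
        have : F' = E := Finset.Subset.antisymm hflat.1 hcon
        rw [this] at hrank; omega
      refine target_of_flat hc hflat ⟨_, hyF'⟩ hex' (j := k) (by omega) ?_
      refine Le.trans ?_ h3b
      refine Le.trans (Le.of_eq ?_) (hle.mul_left pol3)
      ring
    · push Not at hg
      have hF'eq : F' = insert s(v, y) (insert s(v, z) F) := by
        ext g
        rw [Finset.mem_insert, Finset.mem_insert]
        constructor
        · intro h
          by_cases hgF : g ∈ F
          · exact Or.inr (Or.inr hgF)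
          · by_cases hgy : g = s(v, y)
            · exact Or.inl hgy
            · exact Or.inr (Or.inl (hg g h hgF hgy))
        · rintro (rfl | rfl | h)
          · exact hyF'
          · exact hzF'
          · exact hsub h
      have hzE := hflat.1 hzF'
      have hyzne : s(v, y) ≠ s(v, z) := sym_ne (Or.inr hyz) (Or.inl (hc.loopless _ _ hzE))
      refine ih F' (k + 1) hflat ⟨_, hyF'⟩ ?_ (by omega) ?_ (by omega)
      · rw [hF'eq, Finset.card_insert_of_notMem, Finset.card_insert_of_notMem h3, hcard]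
        · ring
        · rw [Finset.mem_insert, not_or]; exact ⟨hyzne, h2⟩
      · refine Le.trans ?_ hle'
        refine Le.trans (Le.of_eq ?_) (hle.mul_left pol2)
        rw [pow_succ]; ring

theorem caseB_start (hc : Cub E) (hpar : ∀ e ∈ E, ∀ f ∈ E, e ≠ f → rk E {e, f} = 2)
    {e : Sym2 V} (he : e ∈ E) (hr : 2 ≤ rk E E) :
    Target E ∨ ∃ (F' : Finset (Sym2 V)) (k' : ℕ), Flat (rk E) E F' ∧ F'.card = 2 * k' + 1 ∧
        rk E F' = k' + 1 ∧ rk E E = k' + 2 ∧ Le ((X + 1) * (X + 2) ^ k') (A (rk E) F' ∅) := by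
  have hb := hc.bridgeless e he
  refine caseB_aux hc hpar (rk E E - 2) {e} 0 ⟨Finset.singleton_subset_iff.mpr he, ?_⟩
    (Finset.singleton_nonempty e) (Finset.card_singleton e) hb ?_ (by rw [hb]; omega)
  · intro f hf h
    rw [Finset.mem_singleton]
    by_contra hne
    have := hpar f hf e he hne
    have h' : rk E {f, e} = rk E {e} := h
    omega
  · rw [pow_zero, mul_one, A_singleton hc.rf hc.r0 hb]
    exact Le.refl _

theorem caseB (hc : Cub E) (hpar : ∀ e ∈ E, ∀ f ∈ E, e ≠ f → rk E {e, f} = 2)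
    {F : Finset (Sym2 V)} {k : ℕ} (hF : Flat (rk E) E F) (hcard : F.card = 2 * k + 1)
    (hk : rk E F = k + 1) (hkE : rk E E = k + 2)
    (hle : Le ((X + 1) * (X + 2) ^ k) (A (rk E) F ∅)) (hE : E.card = 3 * (k + 1)) (hk3 : 3 ≤ k) :
    Target E := by
  have h1 : (E \ F).card = k + 2 := by
    rw [Finset.card_sdiff_of_subset hF.1]; omega
  obtain ⟨y₀, hy₀⟩ : (E \ F).Nonempty := by
    rw [← Finset.card_pos]; omega
  have h2 := step_bound hc.rf hc.r0 hc.bridgeless hF (Finset.Subset.refl _) hF.1 (by omega) y₀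
    ((E \ F).erase y₀) (Finset.notMem_erase _ _)
    (by
      intro y hy
      rw [Finset.insert_erase hy₀] at hy
      exact Finset.mem_sdiff.mp hy)
    (by
      intro y hy z hz hyz
      rw [Finset.insert_erase hy₀] at hy hz
      exact hpar y (Finset.mem_sdiff.mp hy).1 z (Finset.mem_sdiff.mp hz).1 hyz)
  rw [Finset.card_erase_add_one hy₀, h1] at h2
  obtain ⟨j, rfl⟩ : ∃ j, k = j + 3 := ⟨k - 3, by omega⟩
  refine ⟨j + 2, by omega, ?_⟩
  refine Le.trans ?_ h2
  have hpol : Nn (X + ((j + 3 + 2 : ℕ) : ℤ[X])) := Nn.X.add (Nn.natCast _)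
  refine Le.trans ?_ (hle.mul_left hpol)
  unfold Le
  have e : (X + ((j + 3 + 2 : ℕ) : ℤ[X])) * ((X + 1) * (X + 2) ^ (j + 3)) -
      (X + 1) * (X + 2) ^ (j + 2) * (X + 3) ^ 2 =
      (X + 1) * (X + 2) ^ (j + 2) * (((j + 1 : ℕ) : ℤ[X]) * X + ((2 * j + 1 : ℕ) : ℤ[X])) := by
    push_cast
    ring
  rw [e]
  apply Nn.mul (Nn.mul pol1 (Nn.pow pol2 _))
  exact ((Nn.natCast _).mul Nn.X).add (Nn.natCast _)

end Q131.FP
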