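import Pool.Agent.Q131.FP.Local

/-!
Chains of flats in the cographic matroid of a cubic bridgeless graph.
-/

set_option linter.unusedSectionVars false

namespace Q131.FP

open Polynomial Finset

variable {V : Type*} [DecidableEq V] [Finite V] {E : Finset (Sym2 V)}

theorem one_or_full (hc : Cub E) {F : Finset (Sym2 V)} (hF : Flat (rk E) E F) {v a : V}
    (ha : s(v, a) ∈ F) : (∀ w, s(v, w) ∈ E → s(v, w) ∈ F) ∨
      ∃ x y z, x ≠ y ∧ x ≠ z ∧ y ≠ z ∧ (∀ w, s(v, w) ∈ E ↔ w = x ∨ w = y ∨ w = z) ∧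
        s(v, x) ∈ F ∧ s(v, y) ∉ F ∧ s(v, z) ∉ F := by
  obtain ⟨x, y, z, hxy, hxz, hyz, hN⟩ := hc.cubic v
  have haE := hF.1 ha
  have hx : s(v, x) ∈ E := (hN x).mpr (Or.inl rfl)
  have hy : s(v, y) ∈ E := (hN y).mpr (Or.inr (Or.inl rfl))
  have hz : s(v, z) ∈ E := (hN z).mpr (Or.inr (Or.inr rfl))
  by_cases h1 : s(v, x) ∈ F <;> by_cases h2 : s(v, y) ∈ F <;> by_cases h3 : s(v, z) ∈ F
  · left; intro w hw
    rcases (hN w).mp hw with rfl | rfl | rfl <;> assumption
  · exact absurd (hF.2 _ hz (star_circuit hc (fun w hw => (hN w).mp hw) h1 h2 hz)) h3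
  · exact absurd (hF.2 _ hy (star_circuit hc (x := x) (y := z)
      (fun w hw => by have := (hN w).mp hw; tauto) h1 h3 hy)) h2
  · right; exact ⟨x, y, z, hxy, hxz, hyz, hN, h1, h2, h3⟩
  · exact absurd (hF.2 _ hx (star_circuit hc (x := y) (y := z)
      (fun w hw => by have := (hN w).mp hw; tauto) h2 h3 hx)) h1
  · right; exact ⟨y, x, z, Ne.symm hxy, hyz, hxz, fun w => by rw [hN w]; tauto, h2, h1, h3⟩
  · right; exact ⟨z, x, y, Ne.symm hxz, Ne.symm hyz, hxy, fun w => by rw [hN w]; tauto,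
      h3, h1, h2⟩
  · exfalso
    rcases (hN a).mp haE with rfl | rfl | rfl
    · exact h1 ha
    · exact h2 ha
    · exact h3 ha

/-- Along a connected vertex set with an edge in the flat and an edge outside, some vertex has
exactly one edge in the flat. -/
theorem exists_one (hc : Cub E) {F : Finset (Sym2 V)} (hF : Flat (rk E) E F)
    {J : SimpleGraph V} (hJ : ∀ u w, J.Adj u w → s(u, w) ∈ E) {p p' b b' : V}
    (hp : s(p, p') ∈ F) (hb : J.Reachable p b) (hbE : s(b, b') ∈ E) (hbF : s(b, b') ∉ F) :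
    ∃ v x y z, J.Reachable p v ∧ x ≠ y ∧ x ≠ z ∧ y ≠ z ∧
      (∀ w, s(v, w) ∈ E ↔ w = x ∨ w = y ∨ w = z) ∧
        s(v, x) ∈ F ∧ s(v, y) ∉ F ∧ s(v, z) ∉ F := by
  by_contra hcon
  have key : ∀ v a, J.Reachable p v → s(v, a) ∈ F → ∀ w, s(v, w) ∈ E → s(v, w) ∈ F := by
    intro v a hv ha
    rcases one_or_full hc hF ha with h | ⟨x, y, z, h1, h2, h3, h4, h5, h6, h7⟩
    · exact h
    · exact absurd ⟨v, x, y, z, hv, h1, h2, h3, h4, h5, h6, h7⟩ hcon
  have key2 : ∀ u v, J.Reachable u v → J.Reachable p u → (∃ a, s(u, a) ∈ F) →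
      ∃ a, s(v, a) ∈ F := by
    rintro u v ⟨q⟩
    induction q with
    | nil => intro _ h; exact h
    | @cons u x v hadj q ih =>
      rintro hpu ⟨a, ha⟩
      apply ih (hpu.trans hadj.reachable)
      refine ⟨u, ?_⟩
      rw [Sym2.eq_swap]
      exact key u a hpu ha x (hJ _ _ hadj)
  obtain ⟨a, ha⟩ := key2 p b hb (SimpleGraph.Reachable.refl _) ⟨p', hp⟩
  exact hbF (key b a hb ha b' hbE)

theorem ne_of_rank2 (hc : Cub E) {e f : Sym2 V} (he : e ∈ E) (h : rk E {e, f} = 2) : e ≠ f := by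
  rintro rfl
  rw [Finset.pair_eq_singleton, hc.bridgeless e he] at h
  omega

theorem two_bound (hc : Cub E) {F F' : Finset (Sym2 V)} (hF : Flat (rk E) E F) (hF' : F' ⊆ E)
    (hFF' : F ⊆ F') (hr : rk E F' = rk E F + 1) {e f : Sym2 V} (he : e ∈ F') (heF : e ∉ F)
    (hf : f ∈ F') (hfF : f ∉ F) (hef : rk E {e, f} = 2) :
    Le ((X + 2) * A (rk E) F ∅) (A (rk E) F' ∅) := by
  have hne := ne_of_rank2 hc (hF' he) hef
  have := step_bound hc.rf hc.r0 hc.bridgeless hF hF' hFF' hr e {f}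
    (by rw [Finset.mem_singleton]; exact hne)
    (by
      intro y hy
      rw [Finset.mem_insert, Finset.mem_singleton] at hy
      rcases hy with rfl | rfl
      · exact ⟨he, heF⟩
      · exact ⟨hf, hfF⟩)
    (by
      intro y hy z hz hyz
      rw [Finset.mem_insert, Finset.mem_singleton] at hy hz
      rcases hy with rfl | rfl <;> rcases hz with rfl | rfl
      · exact absurd rfl hyz
      · exact hef
      · rw [Finset.pair_comm]; exact hef
      · exact absurd rfl hyz)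
  rw [Finset.card_singleton] at this
  norm_num at this
  exact this

theorem three_bound (hc : Cub E) {F F' : Finset (Sym2 V)} (hF : Flat (rk E) E F) (hF' : F' ⊆ E)
    (hFF' : F ⊆ F') (hr : rk E F' = rk E F + 1) {e f g : Sym2 V} (he : e ∈ F') (heF : e ∉ F)
    (hf : f ∈ F') (hfF : f ∉ F) (hg : g ∈ F') (hgF : g ∉ F) (hef : rk E {e, f} = 2)
    (heg : rk E {e, g} = 2) (hfg : rk E {f, g} = 2) :
    Le ((X + 3) * A (rk E) F ∅) (A (rk E) F' ∅) := by
  have hne := ne_of_rank2 hc (hF' he) hef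
  have hne2 := ne_of_rank2 hc (hF' he) heg
  have hne3 := ne_of_rank2 hc (hF' hf) hfg
  have := step_bound hc.rf hc.r0 hc.bridgeless hF hF' hFF' hr e {f, g}
    (by rw [Finset.mem_insert, Finset.mem_singleton, not_or]; exact ⟨hne, hne2⟩)
    (by
      intro y hy
      rw [Finset.mem_insert, Finset.mem_insert, Finset.mem_singleton] at hy
      rcases hy with rfl | rfl | rfl
      · exact ⟨he, heF⟩
      · exact ⟨hf, hfF⟩
      · exact ⟨hg, hgF⟩)
    (by
      intro y hy z hz hyz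
      rw [Finset.mem_insert, Finset.mem_insert, Finset.mem_singleton] at hy hz
      rcases hy with rfl | rfl | rfl <;> rcases hz with rfl | rfl | rfl
      · exact absurd rfl hyz
      · exact hef
      · exact heg
      · rw [Finset.pair_comm]; exact hef
      · exact absurd rfl hyz
      · exact hfg
      · rw [Finset.pair_comm]; exact heg
      · rw [Finset.pair_comm]; exact hfg
      · exact absurd rfl hyz)
  rw [Finset.card_pair hne3] at this
  norm_num at this
  exact this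

/-- One star step. -/
theorem star_step (hc : Cub E) {F : Finset (Sym2 V)} (hF : Flat (rk E) E F) {v x y z : V}
    (hyz : y ≠ z) (hN : ∀ w, s(v, w) ∈ E ↔ w = x ∨ w = y ∨ w = z)
    (hx : s(v, x) ∈ F) (hy : s(v, y) ∉ F) (hz : s(v, z) ∉ F) :
    ∃ F', F ⊆ F' ∧ Flat (rk E) E F' ∧ rk E F' = rk E F + 1 ∧ s(v, y) ∈ F' ∧ s(v, z) ∈ F' ∧
      F' = cl (rk E) E (insert s(v, y) F) ∧ Le ((X + 2) * A (rk E) F ∅) (A (rk E) F' ∅) := by
  have hyE : s(v, y) ∈ E := (hN y).mpr (Or.inr (Or.inl rfl))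
  have hzE : s(v, z) ∈ E := (hN z).mpr (Or.inr (Or.inr rfl))
  obtain ⟨h1, h2, h3, h4⟩ := cl_step hc.rf hF hyE hy
  have h5 : s(v, z) ∈ cl (rk E) E (insert s(v, y) F) := by
    rw [mem_cl]
    refine ⟨hzE, ?_⟩
    exact star_circuit hc (fun w hw => (hN w).mp hw) (Finset.mem_insert_of_mem hx)
      (Finset.mem_insert_self _ _) hzE
  refine ⟨_, h1, h3, h4, h2, h5, rfl, ?_⟩
  exact two_bound hc hF h3.1 h1 h4 h2 hy h5 hz (adj_not_parallel hc hyz hyE hzE)

/-- A step in which a whole cycle disappears. -/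
theorem cycle_step (hc : Cub E) {F F' : Finset (Sym2 V)} (hF : Flat (rk E) E F)
    (hF' : F' ⊆ E) (hFF' : F ⊆ F') (hr : rk E F' = rk E F + 1) (U : V → Prop)
    (hstar : ∀ x, U x → ∀ w, s(x, w) ∈ E → s(x, w) ∈ F')
    (hU : ∀ x y, U x → s(x, y) ∈ F' → s(x, y) ∉ F → U y) {u u' : V} (hu : U u)
    (huu : s(u, u') ∈ F') (huF : s(u, u') ∉ F) :
    Le ((X + 3) * A (rk E) F ∅) (A (rk E) F' ∅) := by
  have key : ∀ x x', U x → s(x, x') ∈ F' → s(x, x') ∉ F →
      ∃ y, y ≠ x' ∧ s(x, y) ∈ F' ∧ s(x, y) ∉ F := by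
    intro x x' hx h1 h2
    by_contra hcon
    push Not at hcon
    have h3 : ∀ y, s(x, y) ∈ E → y ≠ x' → s(x, y) ∈ F := fun y hy hyx =>
      hcon y hyx (hstar x hx y hy)
    obtain ⟨a, b, c, hab, hac, hbc, hN⟩ := hc.cubic x
    have haE : s(x, a) ∈ E := (hN a).mpr (Or.inl rfl)
    have hbE : s(x, b) ∈ E := (hN b).mpr (Or.inr (Or.inl rfl))
    have hcE : s(x, c) ∈ E := (hN c).mpr (Or.inr (Or.inr rfl))
    rcases (hN x').mp (hF' h1) with rfl | rfl | rfl
    · apply h2
      apply hF.2 _ haE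
      exact star_circuit hc (x := b) (y := c)
        (fun w hw => by have := (hN w).mp hw; tauto) (h3 b hbE (Ne.symm hab))
        (h3 c hcE (Ne.symm hac)) haE
    · apply h2
      apply hF.2 _ hbE
      exact star_circuit hc (x := a) (y := c)
        (fun w hw => by have := (hN w).mp hw; tauto) (h3 a haE hab)
        (h3 c hcE (Ne.symm hbc)) hbE
    · apply h2
      apply hF.2 _ hcE
      exact star_circuit hc (x := a) (y := b)
        (fun w hw => by have := (hN w).mp hw; tauto) (h3 a haE hac)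
        (h3 b hbE hbc) hcE
  -- v2 = u, v1 = u'
  obtain ⟨v3, h31, h3F', h3F⟩ := key u u' hu huu huF
  have hU1 : U u' := hU u u' hu huu huF
  have hU3 : U v3 := hU u v3 hu h3F' h3F
  obtain ⟨v0, h02, h0F', h0F⟩ := key u' u hU1 (by rw [Sym2.eq_swap]; exact huu)
    (by rw [Sym2.eq_swap]; exact huF)
  obtain ⟨v4, h42, h4F', h4F⟩ := key v3 u hU3 (by rw [Sym2.eq_swap]; exact h3F')
    (by rw [Sym2.eq_swap]; exact h3F)
  have a1 : s(v0, u') ∈ F' := by rw [Sym2.eq_swap]; exact h0F'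
  have a1F : s(v0, u') ∉ F := by rw [Sym2.eq_swap]; exact h0F
  have a2 : s(u', u) ∈ F' := by rw [Sym2.eq_swap]; exact huu
  have a2F : s(u', u) ∉ F := by rw [Sym2.eq_swap]; exact huF
  have p12 : rk E {s(v0, u'), s(u', u)} = 2 := by
    rw [Sym2.eq_swap (a := v0) (b := u')]
    exact adj_not_parallel hc h02 (hF' h0F') (hF' a2)
  have p23 : rk E {s(u', u), s(u, v3)} = 2 := by
    rw [Sym2.eq_swap (a := u') (b := u)]
    exact adj_not_parallel hc (Ne.symm h31) (hF' huu) (hF' h3F')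
  have p34 : rk E {s(u, v3), s(v3, v4)} = 2 := by
    rw [Sym2.eq_swap (a := u) (b := v3)]
    exact adj_not_parallel hc (Ne.symm h42) (by rw [Sym2.eq_swap]; exact hF' h3F') (hF' h4F')
  by_cases h14 : s(v0, u') = s(v3, v4)
  · -- triangle
    rw [Sym2.eq_iff] at h14
    rcases h14 with ⟨rfl, rfl⟩ | ⟨_, h⟩
    · have p13 : rk E {s(v0, u'), s(u, v0)} = 2 := by
        rw [Sym2.eq_swap (a := u) (b := v0)]
        have h5 : s(v0, u) ∈ E := by rw [Sym2.eq_swap]; exact hF' h3F'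
        exact adj_not_parallel hc h42 (hF' a1) h5
      exact three_bound hc hF hF' hFF' hr a1 a1F a2 a2F h3F' h3F p12 p13 p23
    · exact absurd h (Ne.symm h31)
  · by_cases p13 : rk E {s(v0, u'), s(u, v3)} = 2
    · exact three_bound hc hF hF' hFF' hr a1 a1F a2 a2F h3F' h3F p12 p13 p23
    · have p24 : rk E {s(u', u), s(v3, v4)} = 2 :=
        uncross hc (hF' a1) (hF' a2) (hF' h3F') (hF' h4F') h02 (Ne.symm h31) (Ne.symm h42)
          h14 p13
      exact three_bound hc hF hF' hFF' hr a2 a2F h3F' h3F h4F' h4F p23 p24 p34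

theorem reach_all (hc : Cub E) (a b : V) : (HG E).Reachable a b := by
  have h := hc.conn
  unfold numComp at h
  rw [Nat.card_eq_one_iff_unique] at h
  obtain ⟨h1, _⟩ := h
  exact SimpleGraph.ConnectedComponent.exact (Subsingleton.elim _ _)

/-- From any proper nonempty flat up to the whole matroid. -/
theorem finish (hc : Cub E) (m : ℕ) : ∀ (K : Finset (Sym2 V)), Flat (rk E) E K →
    K.Nonempty → rk E E = rk E K + m + 1 →
    Le ((X + 2) ^ m * (X + 3) * A (rk E) K ∅) (A (rk E) E ∅) := by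
  induction m with
  | zero =>
    intro K hK hne hr
    have hex : ∃ e ∈ E, e ∉ K := by
      by_contra hcon
      push Not at hcon
      have : K = E := Finset.Subset.antisymm hK.1 hcon
      rw [this] at hr; omega
    obtain ⟨e, he, heK⟩ := hex
    induction e using Sym2.ind with | _ a b => ?_
    rw [pow_zero, one_mul]
    exact cycle_step hc hK (Finset.Subset.refl _) hK.1 hr (fun _ => True)
      (fun _ _ _ h => h) (fun _ _ _ _ _ => trivial) (u := a) (u' := b) trivial he heK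
  | succ m ih =>
    intro K hK hne hr
    have hex : ∃ e ∈ E, e ∉ K := by
      by_contra hcon
      push Not at hcon
      have : K = E := Finset.Subset.antisymm hK.1 hcon
      rw [this] at hr; omega
    obtain ⟨e, he, heK⟩ := hex
    obtain ⟨f, hf⟩ := hne
    induction e using Sym2.ind with | _ b b' => ?_
    induction f using Sym2.ind with | _ p p' => ?_
    obtain ⟨v, x, y, z, _, _, _, hyz, hN, h1, h2, h3⟩ :=
      exists_one hc hK (J := HG E) (fun u w h => (HG_adj.mp h).1) hf (reach_all hc p b) he heK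
    obtain ⟨F', hsub, hflat, hrank, hyF', _, _, hle⟩ := star_step hc hK hyz hN h1 h2 h3
    have := ih F' hflat ⟨_, hyF'⟩ (by omega)
    refine Le.trans ?_ this
    have h4 := hle.mul_left (s := (X + 2) ^ m * (X + 3)) (by
      apply Nn.mul
      · apply Nn.pow; exact Nn.X.add (Nn.natCast 2)
      · exact Nn.X.add (Nn.natCast 3))
    refine Le.trans (Le.of_eq ?_) h4
    ring

/-- The bound we are after. -/
def Target (E : Finset (Sym2 V)) : Prop :=
  ∃ j, rk E E = j + 3 ∧ Le ((X + 1) * (X + 2) ^ j * (X + 3) ^ 2) (A (rk E) E ∅)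

theorem target_of_flat (hc : Cub E) {K : Finset (Sym2 V)} (hK : Flat (rk E) E K)
    (hne : K.Nonempty) (hKE : ∃ e ∈ E, e ∉ K) {j : ℕ} (hr : rk E K = j + 2)
    (hle : Le ((X + 1) * (X + 2) ^ j * (X + 3)) (A (rk E) K ∅)) : Target E := by
  obtain ⟨e, he, heK⟩ := hKE
  have h1 := hK.insert_rank hc.rf he heK
  have h2 := hc.rf.mono (Finset.insert_subset he hK.1)
  obtain ⟨m, hm⟩ : ∃ m, rk E E = rk E K + m + 1 := ⟨rk E E - rk E K - 1, by omega⟩
  have h3 := finish hc m K hK hne hm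
  refine ⟨j + m, by omega, ?_⟩
  refine Le.trans ?_ h3
  have h4 := hle.mul_left (s := (X + 2) ^ m * (X + 3)) (by
    apply Nn.mul
    · apply Nn.pow; exact Nn.X.add (Nn.natCast 2)
    · exact Nn.X.add (Nn.natCast 3))
  refine Le.trans (Le.of_eq ?_) h4
  rw [pow_add]
  ring

end Q131.FP
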