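import Pool.Agent.Q131.FP.Defs
import Pool.Agent.Q131.FP.Abs

/-!
The cographic rank function.
-/

namespace Q131.FP

open Polynomial Finset

variable {V : Type*}

theorem reach_lift {G1 G2 : SimpleGraph V} (h : ∀ u v, G1.Adj u v → G2.Reachable u v) {u v : V}
    (hr : G1.Reachable u v) : G2.Reachable u v := by
  obtain ⟨w⟩ := hr
  induction w with
  | nil => exact SimpleGraph.Reachable.refl _
  | cons hadj _ ih => exact (h _ _ hadj).trans ih

theorem card_cc_congr {G1 G2 : SimpleGraph V} (h12 : ∀ u v, G1.Adj u v → G2.Reachable u v)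
    (h21 : ∀ u v, G2.Adj u v → G1.Reachable u v) :
    Nat.card G1.ConnectedComponent = Nat.card G2.ConnectedComponent :=
  Nat.card_congr (Quot.congrRight fun _ _ => ⟨reach_lift h12, reach_lift h21⟩)

theorem reach_add {H H' : SimpleGraph V} {a b : V}
    (hH' : ∀ u w, H'.Adj u w → (H.Adj u w ∨ (u = a ∧ w = b) ∨ (u = b ∧ w = a)))
    {u w : V} (h : H'.Reachable u w) :
    H.Reachable u w ∨ (H.Reachable u a ∧ H.Reachable b w) ∨
      (H.Reachable u b ∧ H.Reachable a w) := by
  obtain ⟨p⟩ := h
  induction p with
  | nil => exact Or.inl (SimpleGraph.Reachable.refl _)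
  | @cons x y z hadj _ ih =>
    rcases hH' x y hadj with h | ⟨rfl, rfl⟩ | ⟨rfl, rfl⟩
    · have hxy := h.reachable
      rcases ih with h1 | ⟨h1, h2⟩ | ⟨h1, h2⟩
      · exact Or.inl (hxy.trans h1)
      · exact Or.inr (Or.inl ⟨hxy.trans h1, h2⟩)
      · exact Or.inr (Or.inr ⟨hxy.trans h1, h2⟩)
    · rcases ih with h1 | ⟨h1, h2⟩ | ⟨h1, h2⟩
      · exact Or.inr (Or.inl ⟨SimpleGraph.Reachable.refl _, h1⟩)
      · exact Or.inr (Or.inl ⟨SimpleGraph.Reachable.refl _, h2⟩)
      · exact Or.inl h2
    · rcases ih with h1 | ⟨h1, h2⟩ | ⟨h1, h2⟩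
      · exact Or.inr (Or.inr ⟨SimpleGraph.Reachable.refl _, h1⟩)
      · exact Or.inl h2
      · exact Or.inr (Or.inr ⟨SimpleGraph.Reachable.refl _, h2⟩)

theorem card_cc_add [Finite V] {H H' : SimpleGraph V} {a b : V}
    (hle : ∀ u w, H.Adj u w → H'.Adj u w) (hab' : H'.Adj a b)
    (hH' : ∀ u w, H'.Adj u w → (H.Adj u w ∨ (u = a ∧ w = b) ∨ (u = b ∧ w = a)))
    (hab : ¬ H.Reachable a b) :
    Nat.card H'.ConnectedComponent + 1 = Nat.card H.ConnectedComponent := by
  classical
  have hLE : H ≤ H' := fun u w h => hle u w h
  let f : {c : H.ConnectedComponent // c ≠ H.connectedComponentMk b} → H'.ConnectedComponent :=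
    fun c => c.1.map (SimpleGraph.Hom.ofLE hLE)
  have hbij : Function.Bijective f := by
    constructor
    · rintro ⟨c, hc⟩ ⟨d, hd⟩ hcd
      induction c using SimpleGraph.ConnectedComponent.ind with | _ u => ?_
      induction d using SimpleGraph.ConnectedComponent.ind with | _ w => ?_
      have hcd' : H'.connectedComponentMk u = H'.connectedComponentMk w := hcd
      have hr := SimpleGraph.ConnectedComponent.exact hcd'
      apply Subtype.ext
      rcases reach_add hH' hr with h | ⟨_, h2⟩ | ⟨h1, _⟩
      · exact SimpleGraph.ConnectedComponent.sound h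
      · exact absurd (SimpleGraph.ConnectedComponent.sound h2.symm) hd
      · exact absurd (SimpleGraph.ConnectedComponent.sound h1) hc
    · intro c
      induction c using SimpleGraph.ConnectedComponent.ind with | _ u => ?_
      by_cases hu : H.connectedComponentMk u = H.connectedComponentMk b
      · refine ⟨⟨H.connectedComponentMk a, ?_⟩, ?_⟩
        · intro h; exact hab (SimpleGraph.ConnectedComponent.exact h)
        · have h1 : H'.Reachable u b :=
            (SimpleGraph.ConnectedComponent.exact hu).mono hLE
          show H'.connectedComponentMk a = H'.connectedComponentMk u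
          exact SimpleGraph.ConnectedComponent.sound (hab'.reachable.trans h1.symm)
      · exact ⟨⟨H.connectedComponentMk u, hu⟩, rfl⟩
  have h1 := Nat.card_congr (Equiv.ofBijective f hbij)
  rw [← h1]
  have h2 : Nat.card {c : H.ConnectedComponent // c ≠ H.connectedComponentMk b} + 1
      = Nat.card H.ConnectedComponent := by
    have : Fintype H.ConnectedComponent := Fintype.ofFinite _
    rw [Nat.card_eq_fintype_card, Nat.card_eq_fintype_card]
    have h3 := Fintype.card_subtype_compl (fun c => c = H.connectedComponentMk b)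
    have h4 : Fintype.card {c // c = H.connectedComponentMk b} = 1 := Fintype.card_subtype_eq _
    have h5 : 0 < Fintype.card H.ConnectedComponent :=
      Fintype.card_pos_iff.mpr ⟨H.connectedComponentMk b⟩
    have h6 : Fintype.card {c : H.ConnectedComponent // c ≠ H.connectedComponentMk b}
        = Fintype.card {c : H.ConnectedComponent // ¬ (c = H.connectedComponentMk b)} := rfl
    omega
  exact h2

/-- The spanning subgraph with edge set `Z`. -/
abbrev HG (Z : Finset (Sym2 V)) : SimpleGraph V := SimpleGraph.fromEdgeSet (Z : Set (Sym2 V))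

theorem HG_adj {Z : Finset (Sym2 V)} {u w : V} : (HG Z).Adj u w ↔ s(u, w) ∈ Z ∧ u ≠ w := by
  rw [SimpleGraph.fromEdgeSet_adj]; rfl

theorem HG_mono {Z W : Finset (Sym2 V)} (h : Z ⊆ W) {u w : V} (hr : (HG Z).Reachable u w) :
    (HG W).Reachable u w := by
  refine hr.mono ?_
  intro a b hab
  rw [HG_adj] at hab ⊢
  exact ⟨h hab.1, hab.2⟩

variable [DecidableEq V]

theorem numComp_insert_of_reach {Z : Finset (Sym2 V)} {a b : V}
    (h : (HG Z).Reachable a b) : numComp (insert s(a, b) Z) = numComp Z := by
  refine (card_cc_congr (G1 := HG Z) (G2 := HG (insert s(a, b) Z)) ?_ ?_).symm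
  · intro u v huv
    exact HG_mono (Finset.subset_insert _ _) huv.reachable
  · intro u v huv
    rw [HG_adj, Finset.mem_insert] at huv
    rcases huv with ⟨h1 | h1, h2⟩
    · rw [Sym2.eq_iff] at h1
      rcases h1 with ⟨rfl, rfl⟩ | ⟨rfl, rfl⟩
      · exact h
      · exact h.symm
    · exact (HG_adj.mpr ⟨h1, h2⟩).reachable

theorem numComp_insert_of_not_reach [Finite V] {Z : Finset (Sym2 V)} {a b : V}
    (h : ¬ (HG Z).Reachable a b) : numComp (insert s(a, b) Z) + 1 = numComp Z := by
  have hab : a ≠ b := by rintro rfl; exact h (SimpleGraph.Reachable.refl _)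
  refine card_cc_add (H := HG Z) (H' := HG (insert s(a, b) Z)) (a := a) (b := b) ?_ ?_ ?_ h
  · intro u w huw
    rw [HG_adj] at huw ⊢
    exact ⟨Finset.mem_insert_of_mem huw.1, huw.2⟩
  · rw [HG_adj]; exact ⟨Finset.mem_insert_self _ _, hab⟩
  · intro u w huw
    rw [HG_adj, Finset.mem_insert] at huw
    rcases huw with ⟨h1 | h1, h2⟩
    · rw [Sym2.eq_iff] at h1
      exact Or.inr h1
    · exact Or.inl (HG_adj.mpr ⟨h1, h2⟩)

/-- The cographic rank of `X` in the graph with edge set `E`. -/
noncomputable def rk (E X : Finset (Sym2 V)) : ℕ := (X ∩ E).card + 1 - numComp (E \ X)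

variable [Finite V] {E : Finset (Sym2 V)}

theorem numComp_le (hconn : numComp E = 1) (X : Finset (Sym2 V)) :
    numComp (E \ X) ≤ (X ∩ E).card + 1 := by
  induction X using Finset.induction_on with
  | empty => rw [Finset.sdiff_empty, hconn]; omega
  | insert e X he ih =>
    by_cases heE : e ∈ E
    · have h1 : insert e (E \ insert e X) = E \ X := by
        ext z
        simp only [Finset.mem_insert, Finset.mem_sdiff]
        constructor
        · rintro (rfl | h)
          · exact ⟨heE, he⟩
          · exact ⟨h.1, fun h' => h.2 (Or.inr h')⟩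
        · intro h
          by_cases hz : z = e
          · exact Or.inl hz
          · exact Or.inr ⟨h.1, by tauto⟩
      have h2 : (insert e X ∩ E).card = (X ∩ E).card + 1 := by
        rw [Finset.insert_inter_of_mem heE, Finset.card_insert_of_notMem]
        intro h; exact he (Finset.mem_inter.mp h).1
      induction e using Sym2.ind with | _ a b => ?_
      rw [h2]
      by_cases hr : (HG (E \ insert s(a, b) X)).Reachable a b
      · have := numComp_insert_of_reach hr
        rw [h1] at this
        omega
      · have := numComp_insert_of_not_reach hr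
        rw [h1] at this
        omega
    · have h1 : E \ insert e X = E \ X := by
        ext z
        simp only [Finset.mem_insert, Finset.mem_sdiff]
        constructor
        · intro h; exact ⟨h.1, fun h' => h.2 (Or.inr h')⟩
        · intro h
          refine ⟨h.1, ?_⟩
          rintro (rfl | h')
          · exact heE h.1
          · exact h.2 h'
      have h2 : insert e X ∩ E = X ∩ E := Finset.insert_inter_of_notMem heE
      rw [h1, h2]; exact ih

theorem rk_insert_of_reach (hconn : numComp E = 1) {X : Finset (Sym2 V)} {a b : V}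
    (heE : s(a, b) ∈ E) (he : s(a, b) ∉ X)
    (hr : (HG (E \ insert s(a, b) X)).Reachable a b) :
    rk E (insert s(a, b) X) = rk E X + 1 := by
  have h1 : insert s(a, b) (E \ insert s(a, b) X) = E \ X := by
    ext z
    simp only [Finset.mem_insert, Finset.mem_sdiff]
    constructor
    · rintro (rfl | h)
      · exact ⟨heE, he⟩
      · exact ⟨h.1, fun h' => h.2 (Or.inr h')⟩
    · intro h
      by_cases hz : z = s(a, b)
      · exact Or.inl hz
      · exact Or.inr ⟨h.1, by tauto⟩
  have h2 : (insert s(a, b) X ∩ E).card = (X ∩ E).card + 1 := by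
    rw [Finset.insert_inter_of_mem heE, Finset.card_insert_of_notMem]
    intro h; exact he (Finset.mem_inter.mp h).1
  have h3 := numComp_le hconn X
  have h4 := numComp_insert_of_reach hr
  rw [h1] at h4
  unfold rk
  rw [h2]
  omega

theorem rk_insert_of_not_reach {X : Finset (Sym2 V)} {a b : V}
    (heE : s(a, b) ∈ E) (he : s(a, b) ∉ X)
    (hr : ¬ (HG (E \ insert s(a, b) X)).Reachable a b) :
    rk E (insert s(a, b) X) = rk E X := by
  have h1 : insert s(a, b) (E \ insert s(a, b) X) = E \ X := by
    ext z
    simp only [Finset.mem_insert, Finset.mem_sdiff]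
    constructor
    · rintro (rfl | h)
      · exact ⟨heE, he⟩
      · exact ⟨h.1, fun h' => h.2 (Or.inr h')⟩
    · intro h
      by_cases hz : z = s(a, b)
      · exact Or.inl hz
      · exact Or.inr ⟨h.1, by tauto⟩
  have h2 : (insert s(a, b) X ∩ E).card = (X ∩ E).card + 1 := by
    rw [Finset.insert_inter_of_mem heE, Finset.card_insert_of_notMem]
    intro h; exact he (Finset.mem_inter.mp h).1
  have h4 := numComp_insert_of_not_reach hr
  rw [h1] at h4
  unfold rk
  rw [h2]
  omega

theorem rk_insert_notMem {X : Finset (Sym2 V)} {e : Sym2 V} (heE : e ∉ E) :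
    rk E (insert e X) = rk E X := by
  have h1 : E \ insert e X = E \ X := by
    ext z
    simp only [Finset.mem_insert, Finset.mem_sdiff]
    constructor
    · intro h; exact ⟨h.1, fun h' => h.2 (Or.inr h')⟩
    · intro h
      refine ⟨h.1, ?_⟩
      rintro (rfl | h')
      · exact heE h.1
      · exact h.2 h'
  have h2 : insert e X ∩ E = X ∩ E := Finset.insert_inter_of_notMem heE
  unfold rk
  rw [h1, h2]

/-- Closure in the cographic matroid: bridges of the complement. -/
theorem rk_insert_iff (hconn : numComp E = 1) {X : Finset (Sym2 V)} {a b : V}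
    (heE : s(a, b) ∈ E) (he : s(a, b) ∉ X) :
    rk E (insert s(a, b) X) = rk E X ↔ ¬ (HG (E \ insert s(a, b) X)).Reachable a b := by
  constructor
  · intro h hr
    have := rk_insert_of_reach hconn heE he hr
    omega
  · exact rk_insert_of_not_reach heE he

theorem rk_rankFn (hconn : numComp E = 1) : RankFn (rk E) := by
  have key : ∀ (X : Finset (Sym2 V)) (e : Sym2 V),
      rk E (insert e X) = rk E X ∨ rk E (insert e X) = rk E X + 1 := by
    intro X e
    by_cases he : e ∈ X
    · left; rw [Finset.insert_eq_of_mem he]
    · by_cases heE : e ∈ E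
      · induction e using Sym2.ind with | _ a b => ?_
        by_cases hr : (HG (E \ insert s(a, b) X)).Reachable a b
        · right; exact rk_insert_of_reach hconn heE he hr
        · left; exact rk_insert_of_not_reach heE he hr
      · left; exact rk_insert_notMem heE
  refine ⟨?_, ?_, ?_⟩
  · intro X e; rcases key X e with h | h <;> omega
  · intro X e; rcases key X e with h | h <;> omega
  · intro X Y e hXY h
    by_cases heY : e ∈ Y
    · rw [Finset.insert_eq_of_mem heY]
    have heX : e ∉ X := fun h => heY (hXY h)
    by_cases heE : e ∈ E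
    · induction e using Sym2.ind with | _ a b => ?_
      rw [rk_insert_iff hconn heE heX] at h
      rw [rk_insert_iff hconn heE heY]
      intro hr
      apply h
      exact HG_mono (Finset.sdiff_subset_sdiff (Finset.Subset.refl _)
        (Finset.insert_subset_insert _ hXY)) hr
    · exact rk_insert_notMem heE

theorem rk_empty (hconn : numComp E = 1) : rk E ∅ = 0 := by
  unfold rk
  rw [Finset.empty_inter, Finset.card_empty, Finset.sdiff_empty, hconn]

end Q131.FP
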