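import Mathlib

/-!
Definitions: the number of components of a spanning subgraph and the flow polynomial.
-/

namespace Q131.FP

open Polynomial Finset

/-- The number `c(Z)` of connected components of the spanning subgraph `(V, Z)`. -/
noncomputable def numComp {V : Type*} (Z : Finset (Sym2 V)) : ℕ :=
  Nat.card (SimpleGraph.fromEdgeSet (Z : Set (Sym2 V))).ConnectedComponent

/-- The flow polynomial `F(G,t) = ∑_{Z ⊆ E} (-1)^(m-|Z|) t^(|Z| + c(Z) - n)`. -/
noncomputable def flowPoly {V : Type*} [Fintype V] (G : SimpleGraph V) [Fintype G.edgeSet] :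
    ℤ[X] :=
  ∑ Z ∈ G.edgeFinset.powerset,
    (-1) ^ (G.edgeFinset.card - Z.card) * X ^ (Z.card + numComp Z - Fintype.card V)

end Q131.FP
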