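import Pool.Agent.Q131.FP.Labels

/-!
Assembly: from a cubic bridgeless connected simple graph to the coefficient bound.
-/

set_option linter.unusedSectionVars false

namespace Q131.FP

open Polynomial Finset

variable {V : Type*} [Fintype V] [DecidableEq V]

theorem HG_edgeFinset (G : SimpleGraph V) [DecidableRel G.Adj] : HG G.edgeFinset = G := by
  ext a b
  rw [HG_adj, SimpleGraph.mem_edgeFinset, SimpleGraph.mem_edgeSet]
  exact ⟨fun h => h.1, fun h => ⟨h, h.ne⟩⟩

theorem cub_of_graph (G : SimpleGraph V) [DecidableRel G.Adj] (hconn : G.Connected)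
    (hbr : ∀ e ∈ G.edgeSet, ¬ G.IsBridge e) (hreg : G.IsRegularOfDegree 3) :
    Cub G.edgeFinset := by
  have h1 : numComp G.edgeFinset = 1 := by
    show Nat.card (HG G.edgeFinset).ConnectedComponent = 1
    rw [HG_edgeFinset, Nat.card_eq_one_iff_unique]
    have := hconn.nonempty
    refine ⟨hconn.preconnected.subsingleton_connectedComponent, ?_⟩
    exact ⟨G.connectedComponentMk (Classical.arbitrary V)⟩
  refine ⟨h1, ?_, ?_, ?_⟩
  · intro a b hab
    rw [SimpleGraph.mem_edgeFinset, SimpleGraph.mem_edgeSet] at hab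
    exact hab.ne
  · intro e he
    induction e using Sym2.ind with | _ a b => ?_
    have h2 : (HG (G.edgeFinset \ insert s(a, b) ∅)).Reachable a b := by
      have h3 := hbr s(a, b) (SimpleGraph.mem_edgeFinset.mp he)
      rw [SimpleGraph.isBridge_iff, not_not] at h3
      refine h3.mono ?_
      intro u w huw
      rw [SimpleGraph.deleteEdges_adj] at huw
      rw [HG_adj, Finset.mem_sdiff, SimpleGraph.mem_edgeFinset, SimpleGraph.mem_edgeSet]
      refine ⟨⟨huw.1, ?_⟩, huw.1.ne⟩
      rw [insert_empty_eq, Finset.mem_singleton]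
      exact huw.2
    have := rk_insert_of_reach h1 he (Finset.notMem_empty _) h2
    rw [rk_empty h1, insert_empty_eq] at this
    exact this
  · intro v
    have h2 : (G.neighborFinset v).card = 3 := hreg v
    obtain ⟨x, y, z, hxy, hxz, hyz, hN⟩ := Finset.card_eq_three.mp h2
    refine ⟨x, y, z, hxy, hxz, hyz, ?_⟩
    intro w
    rw [SimpleGraph.mem_edgeFinset, SimpleGraph.mem_edgeSet, ← SimpleGraph.mem_neighborFinset, hN]
    simp only [Finset.mem_insert, Finset.mem_singleton]

theorem numComp_empty : numComp (∅ : Finset (Sym2 V)) = Fintype.card V := by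
  unfold numComp
  rw [← Nat.card_eq_fintype_card]
  have hbot : SimpleGraph.fromEdgeSet ((∅ : Finset (Sym2 V)) : Set (Sym2 V)) = ⊥ := by
    rw [Finset.coe_empty, SimpleGraph.fromEdgeSet_empty]
  rw [hbot]
  apply Nat.card_congr
  refine (Equiv.ofBijective (fun v : V => (⊥ : SimpleGraph V).connectedComponentMk v) ?_).symm
  constructor
  · intro a b h
    have := SimpleGraph.ConnectedComponent.exact h
    rwa [SimpleGraph.reachable_bot] at this
  · intro c
    induction c using SimpleGraph.ConnectedComponent.ind with | _ v => ?_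
    exact ⟨v, rfl⟩

theorem rk_top {E : Finset (Sym2 V)} : rk E E = E.card + 1 - Fintype.card V := by
  unfold rk
  rw [Finset.inter_self, Finset.sdiff_self, ← numComp_empty]

/-- The coefficients of the flow polynomial and of `A` agree up to sign. -/
theorem coeff_flow (G : SimpleGraph V) [DecidableRel G.Adj]
    (hc : numComp G.edgeFinset = 1) (i : ℕ) :
    (flowPoly G).coeff i =
      (-1) ^ (rk G.edgeFinset G.edgeFinset + i) *
        (A (rk G.edgeFinset) G.edgeFinset ∅).coeff i := by
  set E := G.edgeFinset with hE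
  have hn : Fintype.card V ≤ E.card + 1 := by
    have := numComp_le hc E
    rwa [Finset.sdiff_self, numComp_empty, Finset.inter_self] at this
  have h1 : flowPoly G = ∑ Z ∈ E.powerset,
      (-1 : ℤ[X]) ^ Z.card * X ^ (rk E E - rk E Z) := by
    unfold flowPoly
    refine Finset.sum_nbij' (fun Z => E \ Z) (fun Z => E \ Z) ?_ ?_ ?_ ?_ ?_
    · intro Z _; rw [Finset.mem_powerset]; exact Finset.sdiff_subset
    · intro Z _; rw [Finset.mem_powerset]; exact Finset.sdiff_subset
    · intro Z hZ
      exact Finset.sdiff_sdiff_eq_self (Finset.mem_powerset.mp hZ)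
    · intro Z hZ
      exact Finset.sdiff_sdiff_eq_self (Finset.mem_powerset.mp hZ)
    · intro Z hZ
      have hZ' : Z ⊆ E := Finset.mem_powerset.mp hZ
      have a1 : (E \ Z).card = E.card - Z.card := Finset.card_sdiff_of_subset hZ'
      have a2 : E \ (E \ Z) = Z := Finset.sdiff_sdiff_eq_self hZ'
      have a3 : (E \ Z) ∩ E = E \ Z := Finset.inter_eq_left.mpr Finset.sdiff_subset
      have a4 : rk E (E \ Z) = E.card - Z.card + 1 - numComp Z := by
        unfold rk
        rw [a3, a2, a1]
      have a5 := numComp_le hc (E \ Z)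
      rw [a2, a3, a1] at a5
      have a6 : rk E (E \ Z) ≤ rk E E := (rk_rankFn hc).mono Finset.sdiff_subset
      have a7 := rk_top (E := E)
      have a8 := Finset.card_le_card hZ'
      rw [a1]
      congr 1
      congr 1
      omega
  rw [h1]
  unfold A
  rw [Polynomial.finsetSum_coeff, Polynomial.finsetSum_coeff, Finset.mul_sum]
  refine Finset.sum_congr rfl fun Z hZ => ?_
  have hZ' : Z ⊆ E := Finset.mem_powerset.mp hZ
  have hm : rk E Z ≤ rk E E := (rk_rankFn hc).mono hZ'
  rw [Finset.union_empty, Finset.union_empty, rk_empty hc, add_zero]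
  have e1 : ∀ k : ℕ, ((-1 : ℤ[X]) ^ k * X ^ (rk E E - rk E Z)).coeff i =
      (-1) ^ k * (if i = rk E E - rk E Z then 1 else 0) := by
    intro k
    rw [show ((-1 : ℤ[X]) ^ k) = Polynomial.C ((-1 : ℤ) ^ k) by simp, Polynomial.coeff_C_mul,
      Polynomial.coeff_X_pow]
  rw [e1, e1]
  by_cases hi : i = rk E E - rk E Z
  · rw [if_pos hi, mul_one, mul_one, ← pow_add]
    have : rk E E + i + (Z.card + rk E Z) = Z.card + 2 * rk E E := by omega
    rw [this, pow_add, pow_mul]
    norm_num
  · rw [if_neg hi]; ring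

theorem main (G : SimpleGraph V) [DecidableRel G.Adj] (hconn : G.Connected)
    (hbr : ∀ e ∈ G.edgeSet, ¬ G.IsBridge e) (hreg : G.IsRegularOfDegree 3)
    (hn : 6 ≤ Fintype.card V) (i : ℕ) :
    ((X + 1) * (X + 2) ^ (Fintype.card V / 2 - 2) * (X + 3) ^ 2 : ℤ[X]).coeff i ≤
      |(flowPoly G).coeff i| := by
  have hc := cub_of_graph G hconn hbr hreg
  have hcard : 3 * Fintype.card V = 2 * G.edgeFinset.card := by
    rw [← SimpleGraph.sum_degrees_eq_twice_card_edges]
    have : ∀ v ∈ (Finset.univ : Finset V), G.degree v = 3 := fun v _ => hreg v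
    rw [Finset.sum_congr rfl this, Finset.sum_const, Finset.card_univ, smul_eq_mul]
    ring
  have htop := rk_top (E := G.edgeFinset)
  obtain ⟨k, hk⟩ : ∃ k, Fintype.card V = 2 * k := ⟨Fintype.card V / 2, by omega⟩
  have hE : G.edgeFinset.card = 3 * k := by omega
  have hrk : rk G.edgeFinset G.edgeFinset = k + 1 := by omega
  have htarget : Target G.edgeFinset := by
    by_cases hpar : ∀ e ∈ G.edgeFinset, ∀ f ∈ G.edgeFinset, e ≠ f → rk G.edgeFinset {e, f} = 2
    · obtain ⟨e, he⟩ : G.edgeFinset.Nonempty := by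
        rw [← Finset.card_pos]; omega
      rcases caseB_start hc hpar he (by omega) with h | ⟨F, k', hF, h1, h2, h3, h4⟩
      · exact h
      · by_cases hk3 : 3 ≤ k'
        · exact caseB hc hpar hF h1 h2 h3 h4 (by omega) hk3
        · exact six_final hc (by omega) (by omega) (by omega)
    · push Not at hpar
      obtain ⟨e, he, f, hf, hef, hr⟩ := hpar
      exact caseA hc he hf hef hr
  obtain ⟨j, hj, hle⟩ := htarget
  have hj' : Fintype.card V / 2 - 2 = j := by omega
  rw [hj']
  have h1 := hle.coeff i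
  have h2 := coeff_flow G hc.conn i
  rw [h2, abs_mul, abs_pow, abs_neg, abs_one, one_pow, one_mul]
  exact h1.trans (le_abs_self _)

end Q131.FP
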