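import Pool.Agent.Q131.FP.Abs

/-!
Flats of an abstract rank function on a ground set `E`, closures and one-step extensions.
-/

namespace Q131.FP

open Polynomial Finset

variable {α : Type*} [DecidableEq α] {r : Finset α → ℕ} {E : Finset α}

/-- Flats inside `E`. -/
def Flat (r : Finset α → ℕ) (E F : Finset α) : Prop :=
  F ⊆ E ∧ ∀ e ∈ E, r (insert e F) = r F → e ∈ F

theorem rank_union_cl (h : RankFn r) (F D : Finset α) (hD : ∀ e ∈ D, r (insert e F) = r F) :
    r (D ∪ F) = r F := by
  induction D using Finset.induction_on with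
  | empty => rw [Finset.empty_union]
  | insert e D _ ih =>
    have ih' := ih (fun z hz => hD z (Finset.mem_insert_of_mem hz))
    rw [Finset.insert_union]
    have := h.cl_mono F (D ∪ F) e Finset.subset_union_right (hD e (Finset.mem_insert_self _ _))
    rw [this, ih']

/-- The closure of `F` inside `E`. -/
def cl (r : Finset α → ℕ) (E F : Finset α) : Finset α := E.filter (fun e => r (insert e F) = r F)

theorem mem_cl {F : Finset α} {e : α} : e ∈ cl r E F ↔ e ∈ E ∧ r (insert e F) = r F := by
  unfold cl; rw [Finset.mem_filter]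

theorem cl_subset (F : Finset α) : cl r E F ⊆ E := Finset.filter_subset _ _

theorem subset_cl {F : Finset α} (hF : F ⊆ E) : F ⊆ cl r E F := by
  intro e he
  rw [mem_cl]
  exact ⟨hF he, by rw [Finset.insert_eq_of_mem he]⟩

theorem rank_cl (h : RankFn r) {F : Finset α} (hF : F ⊆ E) : r (cl r E F) = r F := by
  have := rank_union_cl h F (cl r E F) (fun e he => (mem_cl.mp he).2)
  rwa [Finset.union_eq_left.mpr (subset_cl hF)] at this

theorem flat_cl (h : RankFn r) {F : Finset α} (hF : F ⊆ E) : Flat r E (cl r E F) := by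
  refine ⟨cl_subset F, ?_⟩
  intro e heE he
  rw [mem_cl]
  refine ⟨heE, ?_⟩
  have h1 := h.mono (Finset.insert_subset_insert e (subset_cl (r := r) hF))
  rw [he, rank_cl h hF] at h1
  have h2 := h.le_insert F e
  omega

theorem Flat.insert_rank (h : RankFn r) {F : Finset α} (hF : Flat r E F) {e : α} (heE : e ∈ E)
    (he : e ∉ F) : r (insert e F) = r F + 1 := by
  rcases h.insert_cases F e with h1 | h1
  · exact absurd (hF.2 e heE h1) he
  · exact h1

theorem cl_step (h : RankFn r) {F : Finset α} (hF : Flat r E F) {e : α} (heE : e ∈ E)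
    (he : e ∉ F) : F ⊆ cl r E (insert e F) ∧ e ∈ cl r E (insert e F) ∧
      Flat r E (cl r E (insert e F)) ∧ r (cl r E (insert e F)) = r F + 1 := by
  have hsub : insert e F ⊆ E := Finset.insert_subset heE hF.1
  refine ⟨?_, ?_, flat_cl h hsub, ?_⟩
  · exact (Finset.subset_insert e F).trans (subset_cl hsub)
  · exact subset_cl hsub (Finset.mem_insert_self _ _)
  · rw [rank_cl h hsub, hF.insert_rank h heE he]

/-- The lower bound for one step between flats, with a block of pairwise non-parallel elements. -/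
theorem step_bound (h : RankFn r) (h0 : r ∅ = 0) (hE : ∀ e ∈ E, r {e} = 1)
    {F F' : Finset α} (hF : Flat r E F) (hF' : F' ⊆ E) (hFF' : F ⊆ F')
    (hr : r F' = r F + 1) (y₀ : α) (Y : Finset α) (hy₀ : y₀ ∉ Y)
    (hY : ∀ y ∈ insert y₀ Y, y ∈ F' ∧ y ∉ F)
    (hpar : ∀ y ∈ insert y₀ Y, ∀ z ∈ insert y₀ Y, y ≠ z → r {y, z} = 2) :
    Le ((X + ((Y.card + 1 : ℕ) : ℤ[X])) * A r F ∅) (A r F' ∅) := by
  have hout : ∀ y ∈ insert y₀ Y, r (insert y (F ∪ ∅)) = r (F ∪ ∅) + 1 := by
    intro y hy
    rw [Finset.union_empty]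
    exact hF.insert_rank h (hF' (hY y hy).1) (hY y hy).2
  have hin : ∀ y ∈ Y, r (insert y (insert y₀ (F ∪ ∅))) = r (F ∪ ∅) + 1 := by
    intro y hy
    rw [Finset.union_empty]
    have h1 : insert y (insert y₀ F) ⊆ F' := by
      apply Finset.insert_subset (hY y (Finset.mem_insert_of_mem hy)).1
      exact Finset.insert_subset (hY y₀ (Finset.mem_insert_self _ _)).1 hFF'
    have h2 := h.mono h1
    have h3 := hout y₀ (Finset.mem_insert_self _ _)
    rw [Finset.union_empty] at h3
    have h4 := h.le_insert (insert y₀ F) y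
    omega
  have hp : ∀ y ∈ insert y₀ Y, ∀ z ∈ insert y₀ Y, y ≠ z →
      r (insert y (insert z ∅)) = r ∅ + 2 := by
    intro y hy z hz hyz
    rw [h0, insert_empty_eq]
    exact hpar y hy z hz hyz
  have h1 := A_block h y₀ Y hy₀ hout hin hp
  refine h1.trans ?_
  have hsub : Y ∪ insert y₀ F ⊆ F' := by
    intro z hz
    rcases Finset.mem_union.mp hz with hz | hz
    · exact (hY z (Finset.mem_insert_of_mem hz)).1
    · rcases Finset.mem_insert.mp hz with rfl | hz
      · exact (hY _ (Finset.mem_insert_self _ _)).1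
      · exact hFF' hz
  apply A_mono' h hsub
  · intro e he _
    rw [h0, insert_empty_eq]
    exact hE e (hF' he)
  · intro e he
    rw [Finset.union_empty]
    have h2 := h.mono (Finset.insert_subset he hsub)
    have h3 := hout y₀ (Finset.mem_insert_self _ _)
    rw [Finset.union_empty] at h3
    have h4 : r (insert y₀ F) ≤ r (Y ∪ insert y₀ F) := h.mono Finset.subset_union_right
    have h5 := h.le_insert (Y ∪ insert y₀ F) e
    omega

theorem A_singleton (h : RankFn r) (h0 : r ∅ = 0) {e : α} (he : r {e} = 1) :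
    A r {e} ∅ = X + 1 := by
  have h1 : r (insert e (∅ ∪ ∅)) = r (∅ ∪ ∅) + 1 := by
    rw [Finset.union_empty, h0, insert_empty_eq, he]
  have := A_coloop (S := ∅) (C := ∅) h (Finset.notMem_empty e) h1
  rw [insert_empty_eq, A_empty, mul_one] at this
  exact this

end Q131.FP
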