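import Pool.Agent.Q131.FP.SixB

/-!
Cubic graphs on six vertices: the two possible labellings.
-/

set_option linter.unusedSectionVars false

namespace Q131.FP

open Polynomial Finset

def bk (xy xz yz xp xq yp yq zp zq pq : Bool) : Bool :=
  !(decide (xy.toNat + xz.toNat + xp.toNat + xq.toNat = 2) &&
    decide (xy.toNat + yz.toNat + yp.toNat + yq.toNat = 2) &&
    decide (xz.toNat + yz.toNat + zp.toNat + zq.toNat = 2) &&
    decide (xp.toNat + yp.toNat + zp.toNat + pq.toNat = 3) &&
    decide (xq.toNat + yq.toNat + zq.toNat + pq.toNat = 3)) ||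
    ((xp && xq && yp && yq && zp && zq) ||
    (yp && zp && xq && zq && pq && xy) ||
    (yp && zp && xq && yq && pq && xz) ||
    (xp && zp && yq && zq && pq && xy) ||
    (xp && zp && xq && yq && pq && yz) ||
    (xp && yp && yq && zq && pq && xz) ||
    (xp && yp && xq && zq && pq && yz))

set_option maxRecDepth 100000 in
theorem bk_true : ∀ xy xz yz xp xq yp yq zp zq pq : Bool,
    bk xy xz yz xp xq yp yq zp zq pq = true := by
  decide +kernel

theorem bool_key (xy xz yz xp xq yp yq zp zq pq : Bool)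
    (h1 : xy.toNat + xz.toNat + xp.toNat + xq.toNat = 2)
    (h2 : xy.toNat + yz.toNat + yp.toNat + yq.toNat = 2)
    (h3 : xz.toNat + yz.toNat + zp.toNat + zq.toNat = 2)
    (h4 : xp.toNat + yp.toNat + zp.toNat + pq.toNat = 3)
    (h5 : xq.toNat + yq.toNat + zq.toNat + pq.toNat = 3) :
    (xp = true ∧ xq = true ∧ yp = true ∧ yq = true ∧ zp = true ∧ zq = true) ∨
    -- `p` misses the first, `q` misses the second, the third is adjacent to both
    (yp = true ∧ zp = true ∧ xq = true ∧ zq = true ∧ pq = true ∧ xy = true) ∨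
    (yp = true ∧ zp = true ∧ xq = true ∧ yq = true ∧ pq = true ∧ xz = true) ∨
    (xp = true ∧ zp = true ∧ yq = true ∧ zq = true ∧ pq = true ∧ xy = true) ∨
    (xp = true ∧ zp = true ∧ xq = true ∧ yq = true ∧ pq = true ∧ yz = true) ∨
    (xp = true ∧ yp = true ∧ yq = true ∧ zq = true ∧ pq = true ∧ xz = true) ∨
    (xp = true ∧ yp = true ∧ xq = true ∧ zq = true ∧ pq = true ∧ yz = true) := by
  have h := bk_true xy xz yz xp xq yp yq zp zq pq
  unfold bk at h
  rw [decide_eq_true h1, decide_eq_true h2, decide_eq_true h3, decide_eq_true h4,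
    decide_eq_true h5] at h
  simp only [Bool.and_self, Bool.not_true, Bool.false_or, Bool.or_eq_true, Bool.and_eq_true,
    and_assoc, or_assoc] at h
  exact h

variable {V : Type*} [DecidableEq V] [Fintype V] {E : Finset (Sym2 V)}

theorem inj6 {a b c d e f : V} (hnd : [a, b, c, d, e, f].Nodup) :
    Function.Injective (![a, b, c, d, e, f] : Fin 6 → V) := by
  have h : (![a, b, c, d, e, f] : Fin 6 → V) = [a, b, c, d, e, f].get := by
    funext i
    fin_cases i <;> rfl
  rw [h]
  exact List.nodup_iff_injective_get.mp hnd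

theorem deg_sum (hc : Cub E) (v : V) : ∑ w : V, (decide (s(v, w) ∈ E)).toNat = 3 := by
  classical
  obtain ⟨x, y, z, hxy, hxz, hyz, hN⟩ := hc.cubic v
  have h1 : ∑ w : V, (decide (s(v, w) ∈ E)).toNat = (Finset.univ.filter (fun w => s(v, w) ∈ E)).card := by
    rw [Finset.card_filter]
    refine Finset.sum_congr rfl fun w _ => ?_
    by_cases h : s(v, w) ∈ E <;> simp [h]
  rw [h1]
  have h2 : Finset.univ.filter (fun w => s(v, w) ∈ E) = {x, y, z} := by
    ext w
    simp only [Finset.mem_filter, Finset.mem_univ, true_and, Finset.mem_insert,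
      Finset.mem_singleton]
    exact hN w
  rw [h2]
  exact Finset.card_eq_three.mpr ⟨x, y, z, hxy, hxz, hyz, rfl⟩

/-- The conclusion for six vertices. -/
theorem six_final (hc : Cub E) (hV : Fintype.card V = 6) (hcard : E.card = 9)
    (hrk : rk E E = 4) : Target E := by
  classical
  obtain ⟨u⟩ : Nonempty V := Fintype.card_pos_iff.mp (by omega)
  obtain ⟨x, y, z, hxy, hxz, hyz, hN⟩ := hc.cubic u
  have hux : s(u, x) ∈ E := (hN x).mpr (Or.inl rfl)
  have huy : s(u, y) ∈ E := (hN y).mpr (Or.inr (Or.inl rfl))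
  have huz : s(u, z) ∈ E := (hN z).mpr (Or.inr (Or.inr rfl))
  have nux := hc.loopless _ _ hux
  have nuy := hc.loopless _ _ huy
  have nuz := hc.loopless _ _ huz
  have h4 : ({u, x, y, z} : Finset V).card = 4 := by
    rw [Finset.card_insert_of_notMem, Finset.card_eq_three.mpr ⟨x, y, z, hxy, hxz, hyz, rfl⟩]
    simp only [Finset.mem_insert, Finset.mem_singleton]
    tauto
  have h2 : (Finset.univ \ {u, x, y, z} : Finset V).card = 2 := by
    rw [Finset.card_sdiff_of_subset (Finset.subset_univ _), h4, Finset.card_univ, hV]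
  obtain ⟨p, q, hpq, hpqeq⟩ := Finset.card_eq_two.mp h2
  have hp : p ∈ (Finset.univ \ {u, x, y, z} : Finset V) := by
    rw [hpqeq]; exact Finset.mem_insert_self _ _
  have hq : q ∈ (Finset.univ \ {u, x, y, z} : Finset V) := by
    rw [hpqeq]; exact Finset.mem_insert_of_mem (Finset.mem_singleton_self _)
  simp only [Finset.mem_sdiff, Finset.mem_univ, true_and, Finset.mem_insert,
    Finset.mem_singleton, not_or] at hp hq
  obtain ⟨npu, npx, npy, npz⟩ := hp
  obtain ⟨nqu, nqx, nqy, nqz⟩ := hq
  have hnd : [u, x, y, z, p, q].Nodup := by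
    simp only [List.nodup_cons, List.mem_cons, List.not_mem_nil, or_false, not_or,
      List.nodup_nil, and_true, not_false_eq_true]
    exact ⟨⟨nux, nuy, nuz, Ne.symm npu, Ne.symm nqu⟩, ⟨hxy, hxz, Ne.symm npx, Ne.symm nqx⟩,
      ⟨hyz, Ne.symm npy, Ne.symm nqy⟩, ⟨Ne.symm npz, Ne.symm nqz⟩, hpq⟩
  have huniv : (Finset.univ : Finset V) = {u, x, y, z, p, q} := by
    symm
    apply Finset.eq_univ_of_card
    rw [hV]
    have := List.toFinset_card_of_nodup hnd
    simpa using this
  have sum6 : ∀ f : V → ℕ, ∑ w : V, f w = f u + f x + f y + f z + f p + f q := by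
    intro f
    rw [huniv]
    have h1 : ({u, x, y, z, p, q} : Finset V) = [u, x, y, z, p, q].toFinset := by
      ext t; simp
    rw [h1, List.sum_toFinset _ hnd]
    simp only [List.map_cons, List.map_nil, List.sum_cons, List.sum_nil]
    ring
  have nn : ∀ a : V, decide (s(a, a) ∈ E) = false := by
    intro a
    rw [decide_eq_false_iff_not]
    intro h; exact hc.loopless a a h rfl
  have sw : ∀ a b : V, decide (s(a, b) ∈ E) = decide (s(b, a) ∈ E) := by
    intro a b; rw [Sym2.eq_swap]
  have hup : decide (s(u, p) ∈ E) = false := by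
    rw [decide_eq_false_iff_not]
    intro h
    rcases (hN p).mp h with h | h | h
    · exact npx h
    · exact npy h
    · exact npz h
  have huq : decide (s(u, q) ∈ E) = false := by
    rw [decide_eq_false_iff_not]
    intro h
    rcases (hN q).mp h with h | h | h
    · exact nqx h
    · exact nqy h
    · exact nqz h
  have tux : decide (s(u, x) ∈ E) = true := by rw [decide_eq_true_iff]; exact hux
  have tuy : decide (s(u, y) ∈ E) = true := by rw [decide_eq_true_iff]; exact huy
  have tuz : decide (s(u, z) ∈ E) = true := by rw [decide_eq_true_iff]; exact huz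
  have dx := deg_sum hc x
  have dy := deg_sum hc y
  have dz := deg_sum hc z
  have dp := deg_sum hc p
  have dq := deg_sum hc q
  rw [sum6] at dx dy dz dp dq
  rw [sw x u, tux, nn x] at dx
  rw [sw y u, tuy, nn y, sw y x] at dy
  rw [sw z u, tuz, nn z, sw z x, sw z y] at dz
  rw [sw p u, hup, nn p, sw p x, sw p y, sw p z] at dp
  rw [sw q u, huq, nn q, sw q x, sw q y, sw q z, sw q p] at dq
  simp only [Bool.toNat_true, Bool.toNat_false] at dx dy dz dp dq
  have key := bool_key _ _ _ _ _ _ _ _ _ _ (by omega : (decide (s(x, y) ∈ E)).toNat +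
    (decide (s(x, z) ∈ E)).toNat + (decide (s(x, p) ∈ E)).toNat +
    (decide (s(x, q) ∈ E)).toNat = 2)
    (by omega : (decide (s(x, y) ∈ E)).toNat +
    (decide (s(y, z) ∈ E)).toNat + (decide (s(y, p) ∈ E)).toNat +
    (decide (s(y, q) ∈ E)).toNat = 2)
    (by omega : (decide (s(x, z) ∈ E)).toNat +
    (decide (s(y, z) ∈ E)).toNat + (decide (s(z, p) ∈ E)).toNat +
    (decide (s(z, q) ∈ E)).toNat = 2)
    (by omega : (decide (s(x, p) ∈ E)).toNat +
    (decide (s(y, p) ∈ E)).toNat + (decide (s(z, p) ∈ E)).toNat +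
    (decide (s(p, q) ∈ E)).toNat = 3)
    (by omega : (decide (s(x, q) ∈ E)).toNat +
    (decide (s(y, q) ∈ E)).toNat + (decide (s(z, q) ∈ E)).toNat +
    (decide (s(p, q) ∈ E)).toNat = 3)
  simp only [decide_eq_true_eq] at key
  -- the prism with `v = γ`, `a = α`, `b = β`, `c = q`, `d = p`
  have prism : ∀ α β γ : V, [u, γ, α, β, q, p].Nodup → s(u, α) ∈ E → s(u, β) ∈ E →
      s(u, γ) ∈ E → s(β, p) ∈ E → s(γ, p) ∈ E → s(α, q) ∈ E → s(γ, q) ∈ E → s(p, q) ∈ E →
      s(α, β) ∈ E → Target E := by
    intro α β γ hn h1 h2 h3 h4 h5 h6 h7 h8 h9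
    refine six_target hc tabP tabP_inj ![u, γ, α, β, q, p] (inj6 hn) ?_ hcard hrk allP triP
    intro i
    fin_cases i
    · exact h3
    · exact h1
    · exact h2
    · exact h7
    · exact h5
    · exact h9
    · exact h4
    · show s(p, q) ∈ E
      exact h8
    · show s(q, α) ∈ E
      rw [Sym2.eq_swap]; exact h6
  have hperm : ∀ l : List V, l.Perm [u, x, y, z, p, q] → l.Nodup := fun l hl =>
    hl.nodup_iff.mpr hnd
  rcases key with ⟨h1, h2, h3, h4, h5, h6⟩ | ⟨h1, h2, h3, h4, h5, h6⟩ |
    ⟨h1, h2, h3, h4, h5, h6⟩ | ⟨h1, h2, h3, h4, h5, h6⟩ | ⟨h1, h2, h3, h4, h5, h6⟩ |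
    ⟨h1, h2, h3, h4, h5, h6⟩ | ⟨h1, h2, h3, h4, h5, h6⟩
  · -- K_{3,3}
    refine six_target hc tabK tabK_inj ![u, x, y, z, p, q] (inj6 hnd) ?_ hcard hrk allK triK
    intro i
    fin_cases i
    · exact hux
    · exact huy
    · exact huz
    · exact h1
    · exact h2
    · exact h3
    · show s(p, z) ∈ E
      rw [Sym2.eq_swap]; exact h5
    · exact h6
    · show s(q, y) ∈ E
      rw [Sym2.eq_swap]; exact h4
  · -- p misses x, q misses y, z adjacent to both
    refine prism x y z ?_ hux huy huz h1 h2 h3 h4 h5 h6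
    apply hperm; simp only [List.perm_iff_count]; intro a; simp only [List.count_cons]; ring
  · refine prism x z y ?_ hux huz huy h2 h1 h3 h4 h5 h6
    apply hperm; simp only [List.perm_iff_count]; intro a; simp only [List.count_cons]; ring
  · refine prism y x z ?_ huy hux huz h1 h2 h3 h4 h5 (by rw [Sym2.eq_swap]; exact h6)
    apply hperm; simp only [List.perm_iff_count]; intro a; simp only [List.count_cons]; ring
  · refine prism y z x ?_ huy huz hux h2 h1 h4 h3 h5 h6
    apply hperm; simp only [List.perm_iff_count]; intro a; simp only [List.count_cons]; ring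
  · refine prism z x y ?_ huz hux huy h1 h2 h4 h3 h5 (by rw [Sym2.eq_swap]; exact h6)
    apply hperm; simp only [List.perm_iff_count]; intro a; simp only [List.count_cons]; ring
  · refine prism z y x ?_ huz huy hux h2 h1 h4 h3 h5 (by rw [Sym2.eq_swap]; exact h6)
    apply hperm; simp only [List.perm_iff_count]; intro a; simp only [List.count_cons]; ring

end Q131.FP
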