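import Pool.Agent.Q131.FP.Comp
import Pool.Agent.Q131.FP.Flat

/-!
Local facts in the cographic matroid of a cubic bridgeless graph.
-/

set_option linter.unusedSectionVars false

namespace Q131.FP

open Polynomial Finset

variable {V : Type*}

theorem first_arrival {H K : SimpleGraph V} {x v : V} (hr : H.Reachable x v)
    (hK : ∀ u w, H.Adj u w → u ≠ v → w ≠ v → K.Adj u w) (hx : x ≠ v) :
    ∃ w, H.Adj w v ∧ K.Reachable x w := by
  obtain ⟨p⟩ := hr
  induction p with
  | nil => exact absurd rfl hx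
  | @cons a b c hadj p ih =>
    by_cases hb : b = c
    · subst hb
      exact ⟨a, hadj, SimpleGraph.Reachable.refl _⟩
    · obtain ⟨w, hw, hKw⟩ := ih hK hb
      exact ⟨w, hw, (hK _ _ hadj hx hb).reachable.trans hKw⟩

variable [DecidableEq V] [Finite V] {E : Finset (Sym2 V)}

/-- Edge sets of connected bridgeless simple cubic graphs. -/
structure Cub (E : Finset (Sym2 V)) : Prop where
  conn : numComp E = 1
  loopless : ∀ a b, s(a, b) ∈ E → a ≠ b
  bridgeless : ∀ e ∈ E, rk E {e} = 1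
  cubic : ∀ v, ∃ x y z, x ≠ y ∧ x ≠ z ∧ y ≠ z ∧ ∀ w, s(v, w) ∈ E ↔ w = x ∨ w = y ∨ w = z

theorem Cub.rf (hc : Cub E) : RankFn (rk E) := rk_rankFn hc.conn

theorem Cub.r0 (hc : Cub E) : rk E ∅ = 0 := rk_empty hc.conn

theorem sym_ne {a b c d : V} (h : a ≠ c ∨ b ≠ d) (h' : a ≠ d ∨ b ≠ c) : s(a, b) ≠ s(c, d) := by
  intro e
  rw [Sym2.eq_iff] at e
  tauto

/-- `∅` is a flat. -/
theorem Cub.flat_empty (hc : Cub E) : Flat (rk E) E ∅ := by
  refine ⟨Finset.empty_subset _, ?_⟩
  intro e he h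
  rw [insert_empty_eq, hc.bridgeless e he, hc.r0] at h
  omega

/-- If two of the three edges at `v` lie in `X`, then so does the third, up to closure. -/
theorem star_circuit (hc : Cub E) {v x y z : V}
    (hN : ∀ w, s(v, w) ∈ E → w = x ∨ w = y ∨ w = z) {X : Finset (Sym2 V)}
    (hx : s(v, x) ∈ X) (hy : s(v, y) ∈ X) (hz : s(v, z) ∈ E) :
    rk E (insert s(v, z) X) = rk E X := by
  by_cases hzX : s(v, z) ∈ X
  · rw [Finset.insert_eq_of_mem hzX]
  · apply rk_insert_of_not_reach hz hzX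
    rintro ⟨p⟩
    have hvz := hc.loopless v z hz
    cases p with
    | nil => exact hvz rfl
    | @cons _ b _ hadj _ =>
      rw [HG_adj, Finset.mem_sdiff] at hadj
      rcases hN b hadj.1.1 with rfl | rfl | rfl
      · exact hadj.1.2 (Finset.mem_insert_of_mem hx)
      · exact hadj.1.2 (Finset.mem_insert_of_mem hy)
      · exact hadj.1.2 (Finset.mem_insert_self _ _)

/-- If all three edges at `v` avoid the flat `F`, then two of them are independent over `F`. -/
theorem star_indep (hc : Cub E) {v x y z : V} (hxy : x ≠ y) (hxz : x ≠ z) (hyz : y ≠ z)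
    (hN : ∀ w, s(v, w) ∈ E ↔ w = x ∨ w = y ∨ w = z) {F : Finset (Sym2 V)}
    (hF : Flat (rk E) E F) (hx : s(v, x) ∉ F) (hy : s(v, y) ∉ F) (hz : s(v, z) ∉ F) :
    rk E (insert s(v, x) (insert s(v, y) F)) = rk E F + 2 := by
  have hxE : s(v, x) ∈ E := (hN x).mpr (Or.inl rfl)
  have hyE : s(v, y) ∈ E := (hN y).mpr (Or.inr (Or.inl rfl))
  have hzE : s(v, z) ∈ E := (hN z).mpr (Or.inr (Or.inr rfl))
  have hvx := hc.loopless _ _ hxE
  have hvy := hc.loopless _ _ hyE
  have hvz := hc.loopless _ _ hzE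
  let S : Finset (Sym2 V) := {s(v, x), s(v, y), s(v, z)} ∪ F
  let K : SimpleGraph V := HG (E \ S)
  -- the three neighbours are joined outside `v`
  have key : ∀ i, s(v, i) ∈ E → s(v, i) ∉ F → ∃ w, w ≠ i ∧ (w = x ∨ w = y ∨ w = z) ∧
      K.Reachable i w := by
    intro i hi hiF
    have hvi := hc.loopless _ _ hi
    have h1 : (HG (E \ insert s(v, i) F)).Reachable v i := by
      by_contra hcon
      have h2 := rk_insert_of_not_reach hi hiF hcon
      exact hiF (hF.2 _ hi h2)
    obtain ⟨w, hw, hK⟩ := first_arrival (K := K) h1.symm (by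
      intro u w huw hu hw
      rw [HG_adj, Finset.mem_sdiff] at huw ⊢
      refine ⟨⟨huw.1.1, ?_⟩, huw.2⟩
      intro hS
      rcases Finset.mem_union.mp hS with hS | hS
      · simp only [Finset.mem_insert, Finset.mem_singleton, Sym2.eq_iff] at hS
        tauto
      · exact huw.1.2 (Finset.mem_insert_of_mem hS)) (Ne.symm hvi)
    rw [HG_adj, Finset.mem_sdiff] at hw
    refine ⟨w, ?_, ?_, hK⟩
    · rintro rfl
      apply hw.1.2
      rw [Sym2.eq_swap]
      exact Finset.mem_insert_self _ _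
    · apply (hN w).mp
      rw [Sym2.eq_swap]
      exact hw.1.1
  have hKxz : K.Reachable x z := by
    obtain ⟨a, ha1, ha2, ha3⟩ := key x hxE hx
    obtain ⟨b, hb1, hb2, hb3⟩ := key z hzE hz
    rcases ha2 with rfl | rfl | rfl
    · exact absurd rfl ha1
    · rcases hb2 with rfl | rfl | rfl
      · exact hb3.symm
      · exact ha3.trans hb3.symm
      · exact absurd rfl hb1
    · exact ha3
  have h1 : rk E (insert s(v, y) F) = rk E F + 1 := hF.insert_rank hc.rf hyE hy
  have h2 : s(v, x) ∉ insert s(v, y) F := by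
    rw [Finset.mem_insert, not_or]
    refine ⟨sym_ne (Or.inr hxy) (Or.inl hvy), hx⟩
  have h3 : (HG (E \ insert s(v, x) (insert s(v, y) F))).Reachable v x := by
    have h4 : (HG (E \ insert s(v, x) (insert s(v, y) F))).Reachable v z := by
      apply SimpleGraph.Adj.reachable
      rw [HG_adj, Finset.mem_sdiff]
      refine ⟨⟨hzE, ?_⟩, hvz⟩
      rw [Finset.mem_insert, Finset.mem_insert]
      rintro (h | h | h)
      · rw [Sym2.eq_iff] at h; tauto
      · rw [Sym2.eq_iff] at h; tauto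
      · exact hz h
    have h5 : (HG (E \ insert s(v, x) (insert s(v, y) F))).Reachable x z := by
      refine HG_mono ?_ hKxz
      apply Finset.sdiff_subset_sdiff (Finset.Subset.refl _)
      intro e he
      rw [Finset.mem_insert, Finset.mem_insert] at he
      simp only [S, Finset.mem_union, Finset.mem_insert, Finset.mem_singleton]
      tauto
    exact h4.trans h5.symm
  rw [rk_insert_of_reach hc.conn hxE h2 h3, h1]

/-- Adjacent edges are never parallel. -/
theorem adj_not_parallel (hc : Cub E) {v x y : V} (hxy : x ≠ y) (hx : s(v, x) ∈ E)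
    (hy : s(v, y) ∈ E) : rk E {s(v, x), s(v, y)} = 2 := by
  obtain ⟨a, b, c, hab, hac, hbc, hN⟩ := hc.cubic v
  have hx' := (hN x).mp hx
  have hy' := (hN y).mp hy
  -- the third neighbour
  have key : ∀ z, z ≠ x → z ≠ y → (∀ w, s(v, w) ∈ E ↔ w = x ∨ w = y ∨ w = z) →
      rk E {s(v, x), s(v, y)} = 2 := by
    intro z hzx hzy hN'
    have := star_indep hc hxy (Ne.symm hzx) (Ne.symm hzy) hN' hc.flat_empty
      (Finset.notMem_empty _) (Finset.notMem_empty _) (Finset.notMem_empty _)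
    rw [hc.r0, insert_empty_eq] at this
    exact this
  rcases hx' with rfl | rfl | rfl <;> rcases hy' with rfl | rfl | rfl
  · exact absurd rfl hxy
  · exact key c (Ne.symm hac) (Ne.symm hbc) hN
  · exact key b (Ne.symm hab) hbc (fun w => by rw [hN w]; tauto)
  · exact key c (Ne.symm hbc) (Ne.symm hac) (fun w => by rw [hN w]; tauto)
  · exact absurd rfl hxy
  · exact key a hab hac (fun w => by rw [hN w]; tauto)
  · exact key b hbc (Ne.symm hab) (fun w => by rw [hN w]; tauto)
  · exact key a hac hab (fun w => by rw [hN w]; tauto)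
  · exact absurd rfl hxy

theorem parallel_not_reach (hc : Cub E) {a b : V} {e : Sym2 V} (hab : s(a, b) ∈ E) (he : e ∈ E)
    (hne : s(a, b) ≠ e) (h : rk E {s(a, b), e} ≠ 2) :
    ¬ (HG (E \ {s(a, b), e})).Reachable a b := by
  intro hr
  apply h
  have h1 : s(a, b) ∉ ({e} : Finset (Sym2 V)) := by rwa [Finset.mem_singleton]
  have := rk_insert_of_reach hc.conn hab h1 hr
  rw [hc.bridgeless e he] at this
  exact this

/-- Uncrossing: two interlacing parallel pairs are impossible. -/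
theorem uncross (hc : Cub E) {v0 v1 v2 v3 v4 : V}
    (h1 : s(v0, v1) ∈ E) (h2 : s(v1, v2) ∈ E) (h3 : s(v2, v3) ∈ E) (h4 : s(v3, v4) ∈ E)
    (h02 : v0 ≠ v2) (h13 : v1 ≠ v3) (h24 : v2 ≠ v4) (h14 : s(v0, v1) ≠ s(v3, v4))
    (hp1 : rk E {s(v0, v1), s(v2, v3)} ≠ 2) : rk E {s(v1, v2), s(v3, v4)} = 2 := by
  by_contra hp2
  have n01 := hc.loopless _ _ h1
  have n12 := hc.loopless _ _ h2
  have n23 := hc.loopless _ _ h3
  have n34 := hc.loopless _ _ h4
  have e13 : s(v0, v1) ≠ s(v2, v3) := sym_ne (Or.inl h02) (Or.inr n12)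
  have e24 : s(v1, v2) ≠ s(v3, v4) := sym_ne (Or.inl h13) (Or.inr n23)
  have e12 : s(v0, v1) ≠ s(v1, v2) := sym_ne (Or.inl n01) (Or.inl h02)
  have e23 : s(v1, v2) ≠ s(v2, v3) := sym_ne (Or.inl n12) (Or.inl h13)
  have e34 : s(v2, v3) ≠ s(v3, v4) := sym_ne (Or.inl n23) (Or.inl h24)
  have a1 : ¬ (HG (E \ {s(v0, v1), s(v2, v3)})).Reachable v0 v1 :=
    parallel_not_reach hc h1 h3 e13 hp1
  have a3 : ¬ (HG (E \ {s(v0, v1), s(v2, v3)})).Reachable v2 v3 := by
    rw [Finset.pair_comm]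
    apply parallel_not_reach hc h3 h1 (Ne.symm e13)
    rw [Finset.pair_comm]; exact hp1
  have b2 : ¬ (HG (E \ {s(v1, v2), s(v3, v4)})).Reachable v1 v2 :=
    parallel_not_reach hc h2 h4 e24 hp2
  have b4 : ¬ (HG (E \ {s(v1, v2), s(v3, v4)})).Reachable v3 v4 := by
    rw [Finset.pair_comm]
    apply parallel_not_reach hc h4 h2 (Ne.symm e24)
    rw [Finset.pair_comm]; exact hp2
  have c12 : (HG (E \ {s(v0, v1), s(v2, v3)})).Reachable v1 v2 := by
    apply SimpleGraph.Adj.reachable
    rw [HG_adj, Finset.mem_sdiff, Finset.mem_insert, Finset.mem_singleton]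
    exact ⟨⟨h2, fun h => h.elim (fun h => e12 h.symm) e23⟩, n12⟩
  have c23 : (HG (E \ {s(v1, v2), s(v3, v4)})).Reachable v2 v3 := by
    apply SimpleGraph.Adj.reachable
    rw [HG_adj, Finset.mem_sdiff, Finset.mem_insert, Finset.mem_singleton]
    exact ⟨⟨h3, fun h => h.elim (fun h => e23 h.symm) e34⟩, n23⟩
  -- no walk avoiding e2, e3 leaves the intersection
  have key : ∀ x y, (HG (E \ {s(v2, v1), s(v2, v3)})).Reachable x y →
      (HG (E \ {s(v0, v1), s(v2, v3)})).Reachable v2 x →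
      (HG (E \ {s(v1, v2), s(v3, v4)})).Reachable v2 x →
      (HG (E \ {s(v1, v2), s(v3, v4)})).Reachable v2 y := by
    rintro x y ⟨p⟩
    induction p with
    | nil => intro _ h; exact h
    | @cons x y z hadj p ih =>
      intro hA hA'
      rw [HG_adj, Finset.mem_sdiff, Finset.mem_insert, Finset.mem_singleton, not_or] at hadj
      obtain ⟨⟨hE, hn2, hn3⟩, hxy⟩ := hadj
      have hn1 : s(x, y) ≠ s(v0, v1) := by
        intro h
        rw [Sym2.eq_iff] at h
        rcases h with ⟨rfl, rfl⟩ | ⟨rfl, rfl⟩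
        · exact a1 (hA.symm.trans c12.symm)
        · exact b2 hA'.symm
      have hn4 : s(x, y) ≠ s(v3, v4) := by
        intro h
        rw [Sym2.eq_iff] at h
        rcases h with ⟨rfl, rfl⟩ | ⟨rfl, rfl⟩
        · exact a3 hA
        · exact b4 (c23.symm.trans hA')
      apply ih
      · refine hA.trans (SimpleGraph.Adj.reachable ?_)
        rw [HG_adj, Finset.mem_sdiff, Finset.mem_insert, Finset.mem_singleton, not_or]
        exact ⟨⟨hE, hn1, hn3⟩, hxy⟩
      · refine hA'.trans (SimpleGraph.Adj.reachable ?_)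
        rw [HG_adj, Finset.mem_sdiff, Finset.mem_insert, Finset.mem_singleton, not_or]
        rw [Sym2.eq_swap (a := v2) (b := v1)] at hn2
        exact ⟨⟨hE, hn2, hn4⟩, hxy⟩
  have h2' : s(v2, v1) ∈ E := by rw [Sym2.eq_swap]; exact h2
  have fin := adj_not_parallel hc (v := v2) (x := v1) (y := v3) h13 h2' h3
  have hr : ¬ (HG (E \ {s(v2, v1), s(v2, v3)})).Reachable v2 v1 := by
    intro hr
    have := key _ _ hr (SimpleGraph.Reachable.refl _) (SimpleGraph.Reachable.refl _)
    exact b2 this.symm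
  have h5 : s(v2, v1) ∉ ({s(v2, v3)} : Finset (Sym2 V)) := by
    rw [Finset.mem_singleton]
    exact sym_ne (Or.inr h13) (Or.inl n23)
  have := rk_insert_of_not_reach h2' h5 hr
  rw [hc.bridgeless _ h3] at this
  rw [this] at fin
  omega

end Q131.FP
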