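import Pool.Agent.Q131.FP.Flat

/-!
The abstract computation for the two cubic graphs on six vertices.
-/

namespace Q131.FP

open Polynomial Finset

abbrev Tri := Fin 9 × Fin 9 × Fin 9

/-- Close under one triple. -/
def stepc (S : Finset (Fin 9)) (t : Tri) : Finset (Fin 9) :=
  if t.1 ∈ S ∧ t.2.1 ∈ S then insert t.2.2 S
  else if t.1 ∈ S ∧ t.2.2 ∈ S then insert t.2.1 S
  else if t.2.1 ∈ S ∧ t.2.2 ∈ S then insert t.1 S
  else S

def clo (L : List Tri) (S : Finset (Fin 9)) : Finset (Fin 9) :=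
  (L ++ L ++ L ++ L).foldl stepc S

def grow (L : List Tri) (S : Finset (Fin 9)) : Finset (Fin 9) :=
  ([0, 1, 2, 3, 4, 5, 6, 7, 8] : List (Fin 9)).foldl
    (fun T i => if i ∈ S ∧ i ∉ clo L T then insert i T else T) ∅

def extend (L : List Tri) (S : Finset (Fin 9)) : Finset (Fin 9) :=
  ([1, 3, 5, 2, 4, 7, 0, 6, 8] : List (Fin 9)).foldl
    (fun T i => if i ∉ clo L T then insert i T else T) S

/-- The set `S` has rank `k`, as certified by closures under the stars. -/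
def Rc (L : List Tri) (S : Finset (Fin 9)) (k : ℕ) : Prop :=
  grow L S ⊆ S ∧ S ⊆ clo L (grow L S) ∧ grow L S ⊆ extend L (grow L S) ∧
    (extend L (grow L S)).card = 4 ∧ clo L (extend L (grow L S)) = Finset.univ ∧
    (grow L S).card = k

instance (L : List Tri) (S : Finset (Fin 9)) (k : ℕ) : Decidable (Rc L S k) := by
  unfold Rc; infer_instance

/-- The stars of `K_{3,3}` (edges uv, ua, ub, vc, vd, ac, cb, bd, da). -/
def LK : List Tri := [(0, 1, 2), (0, 3, 4), (1, 5, 8), (2, 6, 7), (3, 5, 6), (4, 7, 8)]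

/-- The stars of the prism (edges uv, ua, ub, vc, vd, ab, bd, dc, ca). -/
def LP : List Tri := [(0, 1, 2), (0, 3, 4), (1, 5, 8), (2, 5, 6), (3, 7, 8), (4, 6, 7)]

/-- `r` is a rank function of rank 4 in which all triples of `L` are circuits. -/
structure Six (L : List Tri) (r : Finset (Fin 9) → ℕ) : Prop where
  rf : RankFn r
  r0 : r ∅ = 0
  top : r Finset.univ = 4
  tri : ∀ t ∈ L, ∀ S : Finset (Fin 9),
    (t.1 ∈ S → t.2.1 ∈ S → r (insert t.2.2 S) = r S) ∧
    (t.1 ∈ S → t.2.2 ∈ S → r (insert t.2.1 S) = r S) ∧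
    (t.2.1 ∈ S → t.2.2 ∈ S → r (insert t.1 S) = r S)

variable {L : List Tri} {r : Finset (Fin 9) → ℕ}

theorem Six.stepc (h : Six L r) {t : Tri} (ht : t ∈ L) (S : Finset (Fin 9)) :
    r (stepc S t) = r S := by
  unfold Q131.FP.stepc
  obtain ⟨h1, h2, h3⟩ := h.tri t ht S
  split_ifs with a b c
  · exact h1 a.1 a.2
  · exact h2 b.1 b.2
  · exact h3 c.1 c.2
  · rfl

theorem Six.foldl (h : Six L r) (M : List Tri) (hM : ∀ t ∈ M, t ∈ L) :
    ∀ S : Finset (Fin 9), r (M.foldl Q131.FP.stepc S) = r S := by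
  induction M with
  | nil => intro S; rfl
  | cons t M ih =>
    intro S
    rw [List.foldl_cons, ih (fun t ht => hM t (List.mem_cons_of_mem _ ht)),
      h.stepc (hM t List.mem_cons_self)]

theorem Six.clo (h : Six L r) (S : Finset (Fin 9)) : r (clo L S) = r S := by
  unfold Q131.FP.clo
  apply h.foldl
  intro t ht
  simp only [List.mem_append] at ht
  tauto

theorem RankFn.union_le {α : Type*} [DecidableEq α] {r : Finset α → ℕ} (h : RankFn r)
    (T D : Finset α) : r (D ∪ T) ≤ r T + D.card := by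
  induction D using Finset.induction_on with
  | empty => rw [Finset.empty_union]; omega
  | insert e D he ih =>
    rw [Finset.insert_union, Finset.card_insert_of_notMem he]
    have := h.insert_le (D ∪ T) e
    omega

theorem Six.eval (h : Six L r) {S : Finset (Fin 9)} {k : ℕ} (hS : Rc L S k) : r S = k := by
  obtain ⟨h1, h2, h3, h4, h5, h6⟩ := hS
  set T := grow L S
  set B := extend L T
  have hB : r B = 4 := by rw [← h.clo B, h5, h.top]
  have a1 := h.rf.union_le T (B \ T)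
  rw [Finset.sdiff_union_of_subset h3, hB] at a1
  have a2 := Finset.card_sdiff_of_subset h3
  have a2' := Finset.card_le_card h3
  have a3 := h.rf.union_le ∅ T
  rw [Finset.union_empty, h.r0] at a3
  have a4 := h.rf.mono h1
  have a5 := h.rf.mono h2
  rw [h.clo] at a5
  omega

/-- Certificates for the block lemma. -/
def BlkC (L : List Tri) (H C : Finset (Fin 9)) (y₀ : Fin 9) (Y : Finset (Fin 9)) (a c : ℕ) :
    Prop :=
  y₀ ∉ Y ∧ Rc L (H ∪ C) a ∧ Rc L C c ∧
    (∀ y ∈ insert y₀ Y, Rc L (insert y (H ∪ C)) (a + 1)) ∧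
    (∀ y ∈ Y, Rc L (insert y (insert y₀ (H ∪ C))) (a + 1)) ∧
    (∀ y ∈ insert y₀ Y, ∀ z ∈ insert y₀ Y, y ≠ z → Rc L (insert y (insert z C)) (c + 2))

instance (L : List Tri) (H C : Finset (Fin 9)) (y₀ : Fin 9) (Y : Finset (Fin 9)) (a c : ℕ) :
    Decidable (BlkC L H C y₀ Y a c) := by
  unfold BlkC; infer_instance

theorem Six.blk (h : Six L r) {H C : Finset (Fin 9)} {y₀ : Fin 9} {Y : Finset (Fin 9)} {a c : ℕ}
    (hb : BlkC L H C y₀ Y a c) :
    Le ((X + ((Y.card + 1 : ℕ) : ℤ[X])) * A r H C) (A r (Y ∪ insert y₀ H) C) := by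
  obtain ⟨h0, h1, h2, h3, h4, h5⟩ := hb
  apply A_block h.rf y₀ Y h0
  · intro y hy; rw [h.eval (h3 y hy), h.eval h1]
  · intro y hy; rw [h.eval (h4 y hy), h.eval h1]
  · intro y hy z hz hyz; rw [h.eval (h5 y hy z hz hyz), h.eval h2]

/-- All the certificates needed. -/
def AllC (L : List Tri) : Prop :=
  BlkC L {0} ∅ 1 {2} 1 0 ∧ BlkC L {0, 1, 2} ∅ 3 {4} 2 0 ∧ BlkC L {0, 1, 2, 3, 4} ∅ 5 {6, 8} 3 0 ∧
  BlkC L {0} {7} 1 {2} 2 1 ∧ BlkC L {0, 1, 2} {7} 3 {4, 5} 3 1 ∧
  Rc L {0} 1 ∧ Rc L {0, 7} 2 ∧ Rc L {7} 1 ∧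
  Rc L {0, 1, 2, 3, 4, 5, 7} 4 ∧ Rc L {0, 1, 2, 3, 4, 5, 6, 8} 4 ∧ Rc L {6, 7} 2 ∧ Rc L {7, 8} 2

instance (L : List Tri) : Decidable (AllC L) := by
  unfold AllC; infer_instance

set_option maxRecDepth 100000 in
theorem allK : AllC LK := by
  decide +kernel

set_option maxRecDepth 100000 in
theorem allP : AllC LP := by
  decide +kernel

end Q131.FP
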