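import Pool.Agent.Q131.FP.Six
import Pool.Agent.Q131.FP.Cases

/-!
The bound for the two cubic graphs on six vertices.
-/

set_option linter.unusedSectionVars false

namespace Q131.FP

open Polynomial Finset

variable {L : List Tri} {r : Finset (Fin 9) → ℕ}

set_option maxRecDepth 100000 in
theorem Six.bound (h : Six L r) (hL : AllC L) :
    Le ((X + 1) * (X + 2) * (X + 3) ^ 2) (A r Finset.univ ∅) := by
  obtain ⟨b1, b2, b3, c1, c2, e0, e07, e7, eC, eE, e67, e78⟩ := hL
  have B1 := h.blk b1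
  have B2 := h.blk b2
  have B3 := h.blk b3
  have C1 := h.blk c1
  have C2 := h.blk c2
  rw [show ({2} ∪ insert 1 {0} : Finset (Fin 9)) = {0, 1, 2} by decide] at B1 C1
  rw [show ({4} ∪ insert 3 {0, 1, 2} : Finset (Fin 9)) = {0, 1, 2, 3, 4} by decide] at B2
  rw [show ({6, 8} ∪ insert 5 {0, 1, 2, 3, 4} : Finset (Fin 9)) = {0, 1, 2, 3, 4, 5, 6, 8} by
    decide] at B3
  rw [show ({4, 5} ∪ insert 3 {0, 1, 2} : Finset (Fin 9)) = {0, 1, 2, 3, 4, 5} by decide] at C2
  rw [Finset.card_singleton] at B1 B2 C1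
  rw [show (({6, 8} : Finset (Fin 9)).card) = 2 by decide] at B3
  rw [show (({4, 5} : Finset (Fin 9)).card) = 2 by decide] at C2
  have A0 : A r {0} ∅ = X + 1 := A_singleton h.rf h.r0 (h.eval e0)
  have A07 : A r {0} {7} = X + 1 := by
    have h1 : r (insert 0 (∅ ∪ {7})) = r (∅ ∪ {7}) + 1 := by
      rw [Finset.empty_union, h.eval e7]
      exact h.eval e07
    have := A_coloop (S := ∅) (C := {7}) h.rf (Finset.notMem_empty (0 : Fin 9)) h1
    rw [insert_empty_eq, A_empty, mul_one] at this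
    exact this
  have htop : ∀ S : Finset (Fin 9), r S ≤ 4 := by
    intro S; rw [← h.top]; exact h.rf.mono (Finset.subset_univ _)
  have hdc : A r Finset.univ ∅ = A r {0, 1, 2, 3, 4, 5, 6, 8} ∅ +
      A r {0, 1, 2, 3, 4, 5, 6, 8} {7} := by
    have hu : (Finset.univ : Finset (Fin 9)) = insert 7 {0, 1, 2, 3, 4, 5, 6, 8} := by decide
    rw [hu]
    apply A_dc
    · decide
    · rw [insert_empty_eq, h.eval e7, h.r0]
    · rw [Finset.union_empty, ← hu, h.top, h.eval eE]
  have hmono : Le (A r {0, 1, 2, 3, 4, 5} {7}) (A r {0, 1, 2, 3, 4, 5, 6, 8} {7}) := by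
    apply A_mono' h.rf
    · decide
    · intro e he he'
      have : e = 6 ∨ e = 8 := by
        revert e; decide
      rcases this with rfl | rfl
      · rw [h.eval e7]; exact h.eval e67
      · rw [h.eval e7]
        rw [show (insert 8 {7} : Finset (Fin 9)) = {7, 8} by decide]
        exact h.eval e78
    · intro e _
      have h1 : r ({0, 1, 2, 3, 4, 5} ∪ {7}) = 4 := h.eval eC
      have h2 := h.rf.le_insert ({0, 1, 2, 3, 4, 5} ∪ {7}) e
      have h3 := htop (insert e ({0, 1, 2, 3, 4, 5} ∪ {7}))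
      omega
  -- combine
  have p2 : Nn (X + ((1 + 1 : ℕ) : ℤ[X])) := Nn.X.add (Nn.natCast _)
  have p3 : Nn (X + ((2 + 1 : ℕ) : ℤ[X])) := Nn.X.add (Nn.natCast _)
  have L1 : Le ((X + ((2 + 1 : ℕ) : ℤ[X])) * ((X + ((1 + 1 : ℕ) : ℤ[X])) *
      ((X + ((1 + 1 : ℕ) : ℤ[X])) * (X + 1)))) (A r {0, 1, 2, 3, 4, 5, 6, 8} ∅) := by
    refine Le.trans ?_ B3
    apply Le.mul_left _ p3
    refine Le.trans ?_ B2
    apply Le.mul_left _ p2
    rw [← A0]
    exact B1
  have L2 : Le ((X + ((2 + 1 : ℕ) : ℤ[X])) * ((X + ((1 + 1 : ℕ) : ℤ[X])) * (X + 1)))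
      (A r {0, 1, 2, 3, 4, 5, 6, 8} {7}) := by
    refine Le.trans ?_ hmono
    refine Le.trans ?_ C2
    apply Le.mul_left _ p3
    rw [← A07]
    exact C1
  rw [hdc]
  refine Le.trans (Le.of_eq ?_) (L1.add L2)
  push_cast
  ring

section transport

variable {α β : Type*} [DecidableEq α] [DecidableEq β]

theorem A_map (r : Finset β → ℕ) (φ : α ↪ β) (S C : Finset α) :
    A (fun Z => r (Z.map φ)) S C = A r (S.map φ) (C.map φ) := by
  unfold A
  refine Finset.sum_nbij (fun Z => Z.map φ) ?_ ?_ ?_ ?_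
  · intro Z hZ
    rw [Finset.mem_powerset] at hZ ⊢
    exact Finset.map_subset_map.mpr hZ
  · intro Z _ W _ h
    exact Finset.map_injective φ h
  · intro W hW
    rw [Finset.mem_coe, Finset.mem_powerset, Finset.subset_map_iff] at hW
    obtain ⟨Z, hZ, rfl⟩ := hW
    exact ⟨Z, Finset.mem_coe.mpr (Finset.mem_powerset.mpr hZ), rfl⟩
  · intro Z _
    simp only [Finset.card_map, Finset.map_union]

theorem RankFn.map {r : Finset β → ℕ} (h : RankFn r) (φ : α ↪ β) :
    RankFn (fun Z => r (Z.map φ)) := by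
  refine ⟨?_, ?_, ?_⟩
  · intro Z e
    show r (Z.map φ) ≤ r ((insert e Z).map φ)
    rw [Finset.map_insert]; exact h.le_insert _ _
  · intro Z e
    show r ((insert e Z).map φ) ≤ r (Z.map φ) + 1
    rw [Finset.map_insert]; exact h.insert_le _ _
  · intro Z W e hZW h1
    have h1' : r ((insert e Z).map φ) = r (Z.map φ) := h1
    show r ((insert e W).map φ) = r (W.map φ)
    rw [Finset.map_insert] at h1' ⊢
    exact h.cl_mono _ _ _ (Finset.map_subset_map.mpr hZW) h1'

end transport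

variable {V : Type*} [DecidableEq V] [Finite V] {E : Finset (Sym2 V)}

theorem nbrs_eq (hc : Cub E) {v x y z : V} (hxy : x ≠ y) (hxz : x ≠ z) (hyz : y ≠ z)
    (hx : s(v, x) ∈ E) (hy : s(v, y) ∈ E) (hz : s(v, z) ∈ E) :
    ∀ w, s(v, w) ∈ E → w = x ∨ w = y ∨ w = z := by
  obtain ⟨a, b, c, _, _, _, hN⟩ := hc.cubic v
  intro w hw
  have h1 := (hN x).mp hx
  have h2 := (hN y).mp hy
  have h3 := (hN z).mp hz
  have h4 := (hN w).mp hw
  have hsub : ({x, y, z} : Finset V) ⊆ {a, b, c} := by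
    intro t ht
    simp only [Finset.mem_insert, Finset.mem_singleton] at ht ⊢
    rcases ht with rfl | rfl | rfl
    · exact h1
    · exact h2
    · exact h3
  have hcard : ({x, y, z} : Finset V).card = 3 := Finset.card_eq_three.mpr
    ⟨x, y, z, hxy, hxz, hyz, rfl⟩
  have heq : ({x, y, z} : Finset V) = {a, b, c} := by
    apply Finset.eq_of_subset_of_card_le hsub
    rw [hcard]
    exact Finset.card_le_three
  have : w ∈ ({a, b, c} : Finset V) := by
    simp only [Finset.mem_insert, Finset.mem_singleton]; exact h4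
  rw [← heq] at this
  simpa only [Finset.mem_insert, Finset.mem_singleton] using this

theorem tri_star (hc : Cub E) {v x y z : V} (hxy : x ≠ y) (hxz : x ≠ z) (hyz : y ≠ z)
    {e f g : Sym2 V} (he : e = s(v, x)) (hf : f = s(v, y)) (hg : g = s(v, z))
    (heE : e ∈ E) (hfE : f ∈ E) (hgE : g ∈ E) (Z : Finset (Sym2 V)) :
    (e ∈ Z → f ∈ Z → rk E (insert g Z) = rk E Z) ∧
    (e ∈ Z → g ∈ Z → rk E (insert f Z) = rk E Z) ∧
    (f ∈ Z → g ∈ Z → rk E (insert e Z) = rk E Z) := by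
  subst he hf hg
  have h := nbrs_eq hc hxy hxz hyz heE hfE hgE
  refine ⟨?_, ?_, ?_⟩
  · intro h1 h2
    exact star_circuit hc h h1 h2 hgE
  · intro h1 h2
    exact star_circuit hc (fun w hw => by have := h w hw; tauto) h1 h2 hfE
  · intro h1 h2
    exact star_circuit hc (fun w hw => by have := h w hw; tauto) h1 h2 heE

/-- Edge tables: `u, v, a, b, c, d = 0, …, 5`. -/
def tabK : Fin 9 → Sym2 (Fin 6) :=
  ![s(0, 1), s(0, 2), s(0, 3), s(1, 4), s(1, 5), s(2, 4), s(4, 3), s(3, 5), s(5, 2)]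

def tabP : Fin 9 → Sym2 (Fin 6) :=
  ![s(0, 1), s(0, 2), s(0, 3), s(1, 4), s(1, 5), s(2, 3), s(3, 5), s(5, 4), s(4, 2)]

theorem tabK_inj : Function.Injective tabK := by decide
theorem tabP_inj : Function.Injective tabP := by decide

/-- The embedding of the edge labels. -/
def emb (tab : Fin 9 → Sym2 (Fin 6)) (ht : Function.Injective tab) (g : Fin 6 → V)
    (hg : Function.Injective g) : Fin 9 ↪ Sym2 V :=
  ⟨fun i => Sym2.map g (tab i), fun _ _ h => ht (Sym2.map.injective hg h)⟩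

theorem six_target (hc : Cub E) (tab : Fin 9 → Sym2 (Fin 6)) (ht : Function.Injective tab)
    (g : Fin 6 → V) (hg : Function.Injective g) (hE : ∀ i, Sym2.map g (tab i) ∈ E)
    (hcard : E.card = 9) (hrk : rk E E = 4) {L : List Tri} (hL : AllC L)
    (htri : ∀ t ∈ L, ∃ v x y z : Fin 6, x ≠ y ∧ x ≠ z ∧ y ≠ z ∧ tab t.1 = s(v, x) ∧
      tab t.2.1 = s(v, y) ∧ tab t.2.2 = s(v, z)) : Target E := by
  let φ := emb tab ht g hg
  have hEφ : Finset.univ.map φ = E := by
    apply Finset.eq_of_subset_of_card_le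
    · intro e he
      rw [Finset.mem_map] at he
      obtain ⟨i, _, rfl⟩ := he
      exact hE i
    · rw [Finset.card_map, Finset.card_univ, hcard, Fintype.card_fin]
  have hsix : Six L (fun Z => rk E (Z.map φ)) := by
    refine ⟨hc.rf.map φ, ?_, ?_, ?_⟩
    · show rk E (Finset.map φ ∅) = 0
      rw [Finset.map_empty]; exact hc.r0
    · show rk E (Finset.map φ Finset.univ) = 4
      rw [hEφ]; exact hrk
    · intro t htL S
      obtain ⟨v, x, y, z, hxy, hxz, hyz, h1, h2, h3⟩ := htri t htL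
      have key := tri_star hc (v := g v) (x := g x) (y := g y) (z := g z)
        (fun h => hxy (hg h)) (fun h => hxz (hg h)) (fun h => hyz (hg h))
        (e := φ t.1) (f := φ t.2.1) (g := φ t.2.2)
        (by show Sym2.map g (tab t.1) = _; rw [h1]; rfl)
        (by show Sym2.map g (tab t.2.1) = _; rw [h2]; rfl)
        (by show Sym2.map g (tab t.2.2) = _; rw [h3]; rfl)
        (hE _) (hE _) (hE _) (S.map φ)
      obtain ⟨k1, k2, k3⟩ := key
      refine ⟨?_, ?_, ?_⟩
      · intro a b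
        show rk E ((insert t.2.2 S).map φ) = rk E (S.map φ)
        rw [Finset.map_insert]
        exact k1 (Finset.mem_map_of_mem φ a) (Finset.mem_map_of_mem φ b)
      · intro a b
        show rk E ((insert t.2.1 S).map φ) = rk E (S.map φ)
        rw [Finset.map_insert]
        exact k2 (Finset.mem_map_of_mem φ a) (Finset.mem_map_of_mem φ b)
      · intro a b
        show rk E ((insert t.1 S).map φ) = rk E (S.map φ)
        rw [Finset.map_insert]
        exact k3 (Finset.mem_map_of_mem φ a) (Finset.mem_map_of_mem φ b)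
  have hb := hsix.bound hL
  rw [A_map, Finset.map_empty, hEφ] at hb
  refine ⟨1, by omega, ?_⟩
  rw [pow_one]
  exact hb

theorem triK : ∀ t ∈ LK, ∃ v x y z : Fin 6, x ≠ y ∧ x ≠ z ∧ y ≠ z ∧ tabK t.1 = s(v, x) ∧
      tabK t.2.1 = s(v, y) ∧ tabK t.2.2 = s(v, z) := by
  intro t ht
  simp only [LK, List.mem_cons, List.not_mem_nil, or_false] at ht
  rcases ht with rfl | rfl | rfl | rfl | rfl | rfl
  · exact ⟨0, 1, 2, 3, by decide⟩
  · exact ⟨1, 0, 4, 5, by decide⟩
  · exact ⟨2, 0, 4, 5, by decide⟩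
  · exact ⟨3, 0, 4, 5, by decide⟩
  · exact ⟨4, 1, 2, 3, by decide⟩
  · exact ⟨5, 1, 3, 2, by decide⟩

theorem triP : ∀ t ∈ LP, ∃ v x y z : Fin 6, x ≠ y ∧ x ≠ z ∧ y ≠ z ∧ tabP t.1 = s(v, x) ∧
      tabP t.2.1 = s(v, y) ∧ tabP t.2.2 = s(v, z) := by
  intro t ht
  simp only [LP, List.mem_cons, List.not_mem_nil, or_false] at ht
  rcases ht with rfl | rfl | rfl | rfl | rfl | rfl
  · exact ⟨0, 1, 2, 3, by decide⟩
  · exact ⟨1, 0, 4, 5, by decide⟩
  · exact ⟨2, 0, 3, 4, by decide⟩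
  · exact ⟨3, 0, 2, 5, by decide⟩
  · exact ⟨4, 1, 5, 2, by decide⟩
  · exact ⟨5, 1, 3, 4, by decide⟩

end Q131.FP
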